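import Pool.Agent.H81.Hy.BurauInf

/-!
# The Burau representation at roots of unity does not factor through hyperbolic groups
-/

set_option autoImplicit false

open scoped commutatorElement

namespace H81.Hy

universe u

/-- the Burau representation on `n` strands with parameter `t`, acting on the first `n`
coordinates of sequences -/
noncomputable def burau (n : ℕ) (t : ℂ) (ht : t ≠ 0) : Br n →* ((ℕ → ℂ) ≃ₗ[ℂ] (ℕ → ℂ)) :=
  PresentedGroup.toGroup (f := fun i : Fin (n - 1) => bur t ht i) (by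
    rintro r ⟨i, j, ⟨hij, rfl⟩ | ⟨hij, rfl⟩⟩
    · simp only [map_mul, map_inv, FreeGroup.lift_apply_of]
      rw [mul_inv_eq_one]
      exact bur_comm t ht i j hij
    · simp only [map_mul, map_inv, FreeGroup.lift_apply_of]
      rw [mul_inv_eq_one, ← hij]
      exact bur_braid t ht i)

theorem burau_gen (n : ℕ) (t : ℂ) (ht : t ≠ 0) (i : ℕ) (hi : i < n - 1) :
    burau n t ht (gen n i) = bur t ht i := by
  unfold gen burau sg
  rw [dif_pos hi]
  exact PresentedGroup.toGroup.of _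

section
variable {n : ℕ} {G : Type u} [Group G] (f : Br n →* G)

theorem map_Pb {m : ℕ} {w : Br n} (hw : w ∈ Pb (gen n) m) : f w ∈ Pb (sq f) m := by
  have h : Pb (gen n) m ≤ (Pb (sq f) m).comap f := by
    unfold Pb
    rw [Subgroup.closure_le]
    rintro g ⟨i, hi, rfl⟩
    show f (gen n i) ∈ Pb (sq f) m
    rw [map_gen]
    exact mem_Pb _ hi
  exact h hw

/-- words which are trivial in the abelianisation and of infinite order in a representation -/
theorem barrier {L : Type*} [Group L] (H : HL G) (hn : 5 ≤ n) (ρ : Br n →* L) (m : ℕ)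
    (hm : 2 * m ≤ n) (w : Br n) (hw : w ∈ Pb (gen n) m)
    (hab : ∀ (A : Type u) (_ : CommGroup A) (χ : Br n →* A),
      (∀ i, i < n - 1 → χ (gen n i) = χ (gen n 0)) → χ w = 1)
    (hρ : ¬ IsOfFinOrder (ρ w)) : ∃ b, f b = 1 ∧ ρ b ≠ 1 := by
  by_contra hc
  push Not at hc
  have hfin : IsOfFinOrder (f w) → False := by
    intro h
    obtain ⟨j, hj, h1⟩ := isOfFinOrder_iff_pow_eq_one.1 h
    rw [← map_pow] at h1
    have h2 := hc _ h1
    rw [map_pow] at h2
    exact hρ (isOfFinOrder_iff_pow_eq_one.2 ⟨j, hj, h2⟩)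
  rcases dichotomy f H hn with ⟨_, _, h2⟩ | ⟨_, _, h3⟩
  · have h4 : Abelianization.of (f.rangeRestrict w) = 1 := by
      refine hab _ inferInstance ((Abelianization.of).comp f.rangeRestrict) ?_
      have hB := sq_BR ((Abelianization.of).comp f.rangeRestrict)
      intro i hi
      rw [map_gen, map_gen]
      refine all_eq hB ?_ i hi
      exact eq_of_comm_braid (mul_comm _ _) (hB.2 0 (by omega))
    rw [← MonoidHom.mem_ker, Abelianization.ker_of] at h4
    have h5 : IsOfFinOrder (⟨f.rangeRestrict w, h4⟩ : commutator f.range) := isOfFinOrder_of_finite _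
    have h6 := (f.range.subtype.comp (commutator f.range).subtype).isOfFinOrder h5
    exact hfin h6
  · have h4 := h3 m hm
    rw [par_eq f m (by omega)] at h4
    have h5 : IsOfFinOrder (⟨f w, map_Pb f hw⟩ : Pb (sq f) m) := isOfFinOrder_of_finite _
    exact hfin ((Pb (sq f) m).subtype.isOfFinOrder h5)

end

/-- the word for `m4` -/
def w4 (n : ℕ) : Br n :=
  gen n 0 * gen n 2 * gen n 1 * (gen n 0)⁻¹ * (gen n 2)⁻¹ * (gen n 1)⁻¹

/-- the word for `m6` -/
def w6 (n : ℕ) : Br n :=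
  gen n 4 * gen n 3 * (gen n 2)⁻¹ * gen n 1 * gen n 3 * (gen n 2)⁻¹ * gen n 1 * (gen n 0)⁻¹ *
    (gen n 1)⁻¹ * gen n 2 * (gen n 3)⁻¹ * (gen n 1)⁻¹ * gen n 2 * (gen n 3)⁻¹

theorem w4_mem (n : ℕ) : w4 n ∈ Pb (gen n) 4 := by
  have h : ∀ i, i < 3 → gen n i ∈ Pb (gen n) 4 := fun i hi => mem_Pb _ (by omega)
  unfold w4
  have h0 := h 0 (by omega)
  have h1 := h 1 (by omega)
  have h2 := h 2 (by omega)
  exact Subgroup.mul_mem _ (Subgroup.mul_mem _ (Subgroup.mul_mem _ (Subgroup.mul_mem _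
    (Subgroup.mul_mem _ h0 h2) h1) (Subgroup.inv_mem _ h0)) (Subgroup.inv_mem _ h2))
    (Subgroup.inv_mem _ h1)

theorem w6_mem (n : ℕ) : w6 n ∈ Pb (gen n) 6 := by
  have h : ∀ i, i < 5 → gen n i ∈ Pb (gen n) 6 := fun i hi => mem_Pb _ (by omega)
  unfold w6
  have h0 := h 0 (by omega)
  have h1 := h 1 (by omega)
  have h2 := h 2 (by omega)
  have h3 := h 3 (by omega)
  have h4 := h 4 (by omega)
  have i0 := Subgroup.inv_mem _ h0
  have i1 := Subgroup.inv_mem _ h1
  have i2 := Subgroup.inv_mem _ h2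
  have i3 := Subgroup.inv_mem _ h3
  repeat' first | assumption | apply Subgroup.mul_mem

theorem w4_ab (n : ℕ) (hn : 8 ≤ n) (A : Type*) [CommGroup A] (χ : Br n →* A)
    (h : ∀ i, i < n - 1 → χ (gen n i) = χ (gen n 0)) : χ (w4 n) = 1 := by
  unfold w4
  simp only [map_mul, map_inv]
  rw [h 1 (by omega), h 2 (by omega)]
  simp

theorem w6_ab (n : ℕ) (hn : 8 ≤ n) (A : Type*) [CommGroup A] (χ : Br n →* A)
    (h : ∀ i, i < n - 1 → χ (gen n i) = χ (gen n 0)) : χ (w6 n) = 1 := by
  unfold w6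
  simp only [map_mul, map_inv]
  rw [h 1 (by omega), h 2 (by omega), h 3 (by omega), h 4 (by omega)]
  simp

theorem burau_w4 (n : ℕ) (hn : 8 ≤ n) (t : ℂ) (ht : t ≠ 0) : burau n t ht (w4 n) = m4 t ht := by
  unfold w4 m4
  simp only [map_mul, map_inv]
  rw [burau_gen n t ht 0 (by omega), burau_gen n t ht 1 (by omega), burau_gen n t ht 2 (by omega)]

theorem burau_w6 (n : ℕ) (hn : 8 ≤ n) (t : ℂ) (ht : t ≠ 0) : burau n t ht (w6 n) = m6 t ht := by
  unfold w6 m6
  simp only [map_mul, map_inv]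
  rw [burau_gen n t ht 0 (by omega), burau_gen n t ht 1 (by omega), burau_gen n t ht 2 (by omega),
    burau_gen n t ht 3 (by omega), burau_gen n t ht 4 (by omega)]

/-- the parameter `- exp (2 π i / k)` -/
noncomputable def tk (k : ℕ) : ℂ := -Complex.exp (2 * Real.pi * Complex.I / k)

theorem tk_ne (k : ℕ) : tk k ≠ 0 := neg_ne_zero.2 (Complex.exp_ne_zero _)

theorem tk_prim (k : ℕ) (hk : k ≠ 0) : IsPrimitiveRoot (-tk k) k := by
  unfold tk
  rw [neg_neg]
  exact Complex.isPrimitiveRoot_exp k hk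

theorem tk_tau (k : ℕ) (hk : 4 ≤ k) : ∃ τ : ℝ, 2 ≤ τ ∧ (τ : ℂ) = 2 - 2 * tk k - 2 * (tk k)⁻¹ := by
  refine ⟨2 + 4 * Real.cos (2 * Real.pi / k), ?_, ?_⟩
  · have hk' : (4 : ℝ) ≤ k := by exact_mod_cast hk
    have h0 : 0 ≤ Real.cos (2 * Real.pi / k) := by
      apply Real.cos_nonneg_of_neg_pi_div_two_le_of_le
      · have : 0 ≤ 2 * Real.pi / k := by positivity
        have := Real.pi_pos
        linarith
      · rw [div_le_div_iff₀ (by linarith) (by norm_num)]
        nlinarith [Real.pi_pos]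
    linarith
  · unfold tk
    have e1 : (Complex.exp (2 * Real.pi * Complex.I / k))⁻¹ =
        Complex.exp (-(2 * Real.pi / k * Complex.I)) := by
      rw [← Complex.exp_neg]
      congr 1
      ring
    have e2 : Complex.exp (2 * Real.pi * Complex.I / k) =
        Complex.exp (2 * Real.pi / k * Complex.I) := by
      congr 1
      ring
    push_cast
    rw [inv_neg, e1, e2, Complex.cos]
    rw [neg_mul]
    ring

/-- the Burau representation at `- exp (2 π i / k)` does not factor through hyperbolic groups -/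
theorem burau_barrier {n k : ℕ} (h : (8 ≤ n ∧ 4 ≤ k) ∨ (12 ≤ n ∧ 3 ≤ k)) {G : Type u} [Group G]
    (H : HL G) (f : Br n →* G) : ∃ b, f b = 1 ∧ burau n (tk k) (tk_ne k) b ≠ 1 := by
  have hk : (8 ≤ n ∧ 4 ≤ k) ∨ (12 ≤ n ∧ k = 3) := by omega
  rcases hk with ⟨hn, hk⟩ | ⟨hn, hk⟩
  · refine barrier f H (by omega) _ 4 (by omega) (w4 n) (w4_mem n)
      (fun A _ χ hχ => w4_ab n hn A χ hχ) ?_
    rw [burau_w4 n hn]
    obtain ⟨τ, h1, h2⟩ := tk_tau k hk
    refine m4_inf _ _ ?_ τ h1 h2
    intro h3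
    have h4 := tk_prim k (by omega)
    rw [h3] at h4
    have h5 : (2 : ℕ) = k := h4.unique (by
      have := IsPrimitiveRoot.neg_one (R := ℂ) 0 (by norm_num)
      exact this)|>.symm
    omega
  · subst hk
    refine barrier f H (by omega) _ 6 (by omega) (w6 n) (w6_mem n)
      (fun A _ χ hχ => w6_ab n (by omega) A χ hχ) ?_
    rw [burau_w6 n (by omega)]
    refine m6_inf _ _ ?_
    have h4 := tk_prim 3 (by norm_num)
    have h5 : (-tk 3) ^ 3 = 1 := h4.pow_eq_one
    have h6 : (-tk 3) ≠ 1 := h4.ne_one (by norm_num)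
    have h7 : (-tk 3 - 1) * (tk 3 ^ 2 - tk 3 + 1) = 0 := by linear_combination h5
    rcases mul_eq_zero.1 h7 with h8 | h8
    · exact absurd (sub_eq_zero.1 h8) h6
    · exact h8

/-- the truncated braid group: the Artin generators have order `k` -/
abbrev TBr (n k : ℕ) : Type :=
  PresentedGroup (brRel n ∪ {r | ∃ i : Fin (n - 1), r = FreeGroup.of i ^ k})

/-- the projection -/
def toTBr (n k : ℕ) : Br n →* TBr n k :=
  PresentedGroup.toGroup (f := fun i : Fin (n - 1) => (PresentedGroup.of i : TBr n k)) (by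
    intro r hr
    have h1 : FreeGroup.lift (fun i : Fin (n - 1) => (PresentedGroup.of i : TBr n k)) =
        PresentedGroup.mk (brRel n ∪ {r | ∃ i : Fin (n - 1), r = FreeGroup.of i ^ k}) := by
      apply FreeGroup.ext_hom
      intro i
      rw [FreeGroup.lift_apply_of]
      rfl
    rw [h1]
    exact PresentedGroup.one_of_mem (Or.inl hr))

/-- truncated braid groups are not hyperbolic -/
theorem trunc_not_hyp {n k : ℕ} (h : (8 ≤ n ∧ 4 ≤ k) ∨ (12 ≤ n ∧ 3 ≤ k)) (H : HL (TBr n k)) :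
    False := by
  obtain ⟨b, hb1, hb2⟩ := burau_barrier h H (toTBr n k)
  have ht : (1 : ℂ) + tk k ≠ 0 := by
    intro h0
    have h4 := tk_prim k (by omega)
    have : -tk k = 1 := by linear_combination -h0
    exact h4.ne_one (by omega) this
  have hpow : (-tk k) ^ k = 1 := (tk_prim k (by omega)).pow_eq_one
  let ρ : TBr n k →* ((ℕ → ℂ) ≃ₗ[ℂ] (ℕ → ℂ)) :=
    PresentedGroup.toGroup (f := fun i : Fin (n - 1) => bur (tk k) (tk_ne k) i) (by
      rintro r (⟨i, j, ⟨hij, rfl⟩ | ⟨hij, rfl⟩⟩ | ⟨i, rfl⟩)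
      · simp only [map_mul, map_inv, FreeGroup.lift_apply_of]
        rw [mul_inv_eq_one]
        exact bur_comm _ _ i j hij
      · simp only [map_mul, map_inv, FreeGroup.lift_apply_of]
        rw [mul_inv_eq_one, ← hij]
        exact bur_braid _ _ i
      · rw [map_pow, FreeGroup.lift_apply_of]
        exact bur_pow _ _ ht k hpow i)
  have h1 : ρ.comp (toTBr n k) = burau n (tk k) (tk_ne k) := by
    apply PresentedGroup.ext
    intro i
    have e1 : toTBr n k (PresentedGroup.of i) = PresentedGroup.of i := by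
      unfold toTBr
      exact PresentedGroup.toGroup.of _
    have e2 : ρ (PresentedGroup.of i) = bur (tk k) (tk_ne k) i := PresentedGroup.toGroup.of _
    have e3 : burau n (tk k) (tk_ne k) (PresentedGroup.of i) = bur (tk k) (tk_ne k) i := by
      unfold burau
      exact PresentedGroup.toGroup.of _
    rw [e3, MonoidHom.comp_apply, e1, e2]
  apply hb2
  rw [← h1, MonoidHom.comp_apply, hb1, map_one]

end H81.Hy
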