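import Pool.Agent.H81.Hy.Fac

/-!
# The lower bound for the order of finite subgroups
-/

set_option autoImplicit false

open scoped commutatorElement

namespace H81.Hy

variable {G : Type*} [Group G]

theorem sup_finite (A B : Subgroup G) (hA : (A : Set G).Finite) (hB : (B : Set G).Finite)
    (hc : ∀ a ∈ A, ∀ b ∈ B, a * b = b * a) : ((A ⊔ B : Subgroup G) : Set G).Finite := by
  have hcomm : ∀ (a : A) (b : B), Commute (A.subtype a) (B.subtype b) := fun a b =>
    hc a a.2 b b.2
  have h1 := MonoidHom.noncommCoprod_range A.subtype B.subtype hcomm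
  rw [A.range_subtype, B.range_subtype] at h1
  rw [← h1, MonoidHom.coe_range]
  have : Finite A := hA
  have : Finite B := hB
  exact Set.finite_range _

theorem BR.shift {N : ℕ} {s : ℕ → G} (h : BR N s) (m : ℕ) : BR (N - m) fun i => s (i + m) := by
  constructor
  · intro i j hij hj
    exact h.1 (i + m) (j + m) (by omega) (by omega)
  · intro i hi
    have := h.2 (i + m) (by omega)
    show s (i + m) * s (i + 1 + m) * s (i + m) = s (i + 1 + m) * s (i + m) * s (i + 1 + m)
    rw [show i + 1 + m = i + m + 1 by ring]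
    exact this

theorem Pb_comm {N : ℕ} {s : ℕ → G} (h : BR N s) (m : ℕ) (hm : 2 * m ≤ N + 1) :
    ∀ a ∈ Pb s m, ∀ b ∈ Pb (fun i => s (i + m)) m, a * b = b * a := by
  have h1 : Pb s m ≤ Subgroup.centralizer (Pb (fun i => s (i + m)) m : Set G) := by
    unfold Pb
    rw [Subgroup.closure_le]
    rintro g ⟨i, hi, rfl⟩
    show s i ∈ Subgroup.centralizer _
    rw [Subgroup.centralizer_closure, Subgroup.mem_centralizer_iff]
    rintro y ⟨j, hj, rfl⟩
    exact (h.1 i (j + m) (by omega) (by omega)).symm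
  intro a ha b hb
  exact ((Subgroup.mem_centralizer_iff.1 (h1 ha)) b hb).symm

theorem Pb_mono (s : ℕ → G) {m n : ℕ} (h : m ≤ n) : Pb s m ≤ Pb s n := by
  unfold Pb
  refine Subgroup.closure_mono ?_
  rintro g ⟨i, hi, rfl⟩
  exact ⟨i, by omega, rfl⟩

theorem Pb_shift_le {N : ℕ} (s : ℕ → G) (m : ℕ) (hm : 2 * m ≤ N + 1) :
    Pb (fun i => s (i + m)) m ≤ Pb s (N + 1) := by
  unfold Pb
  refine Subgroup.closure_mono ?_
  rintro g ⟨i, hi, rfl⟩
  exact ⟨i + m, by omega, rfl⟩

/-- the commutator subgroup of the whole group is finite in the case of infinite order -/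
theorem HL.inf_comm (H : HL G) {N : ℕ} {s : ℕ → G} (h : BR N s) (hN : 4 ≤ N)
    (h0 : ¬ IsOfFinOrder (s 0)) : ((⁅Pb s (N + 1), Pb s (N + 1)⁆ : Subgroup G) : Set G).Finite ∧
      ∃ C : Subgroup (Pb s (N + 1)), C.index ≠ 0 ∧ IsCyclic C := by
  obtain ⟨z, hz, hzi, hc⟩ := H.inf_case h hN h0
  obtain ⟨h1, h2⟩ := H.center_index _ z hz hzi hc
  refine ⟨?_, h2⟩
  have h3 := finite_commutator_of_center h1
  rw [← Subgroup.map_subtype_commutator]
  exact Set.Finite.image _ h3

/-- the finite subgroup -/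
theorem HL.fin_sub (H : HL G) {N : ℕ} {s : ℕ → G} (h : BR N s) (hN : 4 ≤ N) (m : ℕ)
    (hm : 2 * m ≤ N + 1) : ((⁅Pb s m, Pb s m⁆ ⊔
      ⁅Pb (fun i => s (i + m)) m, Pb (fun i => s (i + m)) m⁆ : Subgroup G) : Set G).Finite := by
  by_cases h0 : IsOfFinOrder (s 0)
  · have h1 := H.tors_case h h0 m hm
    have h2 : (Pb (fun i => s (i + m)) m : Set G).Finite := by
      have h3 : Pb (fun i => s (i + m)) m ≤
          (Pb s m).map (MulAut.conj (D s N ^ m)).toMonoidHom := by
        unfold Pb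
        rw [Subgroup.closure_le]
        rintro g ⟨i, hi, rfl⟩
        refine ⟨s i, mem_Pb s hi, ?_⟩
        show (MulAut.conj (D s N ^ m)) (s i) = s (i + m)
        rw [MulAut.conj_apply, conj_shift_pow h i m (by omega)]
      exact Set.Finite.subset (h1.image _) h3
    refine Set.Finite.subset (sup_finite _ _ h1 h2 (Pb_comm h m hm)) ?_
    exact sup_le_sup (Subgroup.commutator_le_self _) (Subgroup.commutator_le_self _)
  · refine Set.Finite.subset (H.inf_comm h hN h0).1 ?_
    exact sup_le (Subgroup.commutator_mono (Pb_mono s (by omega)) (Pb_mono s (by omega)))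
      (Subgroup.commutator_mono (Pb_shift_le s m hm) (Pb_shift_le s m hm))

/-- the bound -/
theorem HL.fact_sq_le (H : HL G) {N : ℕ} {s : ℕ → G} (h : BR N s) (hN : 4 ≤ N)
    (h01 : s 0 ≠ s 1) (k : ℕ) (hk : 4 * k ≤ N + 1) :
    (Nat.factorial k) ^ 2 ≤ H.b ^ (4 * H.δ + 1) := by
  classical
  set m := 2 * k with hm
  set s' : ℕ → G := fun i => s (i + m) with hs'
  set F : Subgroup G := ⁅Pb s m, Pb s m⁆ ⊔ ⁅Pb s' m, Pb s' m⁆ with hF
  have hfin : (F : Set G).Finite := H.fin_sub h hN m (by omega)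
  refine le_trans ?_ (H.card_le F hfin)
  have hA : ⁅Pb s m, Pb s m⁆ ≤ Pb s m := Subgroup.commutator_le_self _
  have hB : ⁅Pb s' m, Pb s' m⁆ ≤ Pb s' m := Subgroup.commutator_le_self _
  have hc := Pb_comm h m (by omega)
  have g1 := fun π => exists_perm h m k (by omega) (by omega) π
  have g2 := fun π => exists_perm (h.shift m) m k (by omega) (by omega) π
  choose a ha1 ha2 using g1
  choose b hb1 hb2 using g2
  have hinj : Function.Injective (fun q : Equiv.Perm (Fin k) × Equiv.Perm (Fin k) =>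
      (⟨a q.1 * b q.2, F.mul_mem (Subgroup.mem_sup_left (ha1 q.1))
        (Subgroup.mem_sup_right (hb1 q.2))⟩ : F)) := by
    rintro ⟨π, ρ⟩ ⟨π', ρ'⟩ hq
    have hq' : a π * b ρ = a π' * b ρ' := congrArg Subtype.val hq
    have e1 : ∀ (π ρ : Equiv.Perm (Fin k)) (i : Fin k),
        (a π * b ρ) * s (2 * i) * (a π * b ρ)⁻¹ = s (2 * (π i : ℕ)) := by
      intro π ρ i
      have hi := i.2
      have hcm : s (2 * i) * b ρ = b ρ * s (2 * i) :=
        hc _ (mem_Pb s (by omega)) _ (hB (hb1 ρ))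
      rw [← ha2 π i]
      calc a π * b ρ * s (2 * i) * (a π * b ρ)⁻¹ =
          a π * (b ρ * s (2 * i)) * (b ρ)⁻¹ * (a π)⁻¹ := by group
        _ = a π * s (2 * i) * (a π)⁻¹ := by rw [← hcm]; group
    have e2 : ∀ (π ρ : Equiv.Perm (Fin k)) (i : Fin k),
        (a π * b ρ) * s (2 * i + m) * (a π * b ρ)⁻¹ = s (2 * (ρ i : ℕ) + m) := by
      intro π ρ i
      have hi := (ρ i).2
      have hcm : a π * s (2 * (ρ i : ℕ) + m) = s (2 * (ρ i : ℕ) + m) * a π :=
        hc _ (hA (ha1 π)) _ (mem_Pb s' (i := 2 * (ρ i : ℕ)) (by omega))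
      have e3 : b ρ * s (2 * i + m) * (b ρ)⁻¹ = s (2 * (ρ i : ℕ) + m) := hb2 ρ i
      calc a π * b ρ * s (2 * i + m) * (a π * b ρ)⁻¹ =
          a π * (b ρ * s (2 * i + m) * (b ρ)⁻¹) * (a π)⁻¹ := by group
        _ = s (2 * (ρ i : ℕ) + m) := by rw [e3, hcm]; group
    have hne : ∀ i j, i < N → j < N → s i = s j → i = j := by
      intro i j hi hj he
      rcases Nat.lt_trichotomy i j with h1 | h1 | h1
      · exact absurd (eq_of_eq h hN i j h1 hj he) h01
      · exact h1
      · exact absurd (eq_of_eq h hN j i h1 hi he.symm) h01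
    have p1 : π = π' := by
      ext i
      have h1 := e1 π ρ i
      rw [hq', e1 π' ρ' i] at h1
      have hi1 := (π i).2
      have hi2 := (π' i).2
      have := hne _ _ (by omega) (by omega) h1
      omega
    have p2 : ρ = ρ' := by
      ext i
      have h1 := e2 π ρ i
      rw [hq', e2 π' ρ' i] at h1
      have hi1 := (ρ i).2
      have hi2 := (ρ' i).2
      have := hne _ _ (by omega) (by omega) h1
      omega
    rw [p1, p2]
  have hFf : Finite F := hfin
  have h1 := Nat.card_le_card_of_injective _ hinj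
  rw [Nat.card_prod, Nat.card_perm, Nat.card_eq_fintype_card, Fintype.card_fin] at h1
  rw [pow_two]
  exact h1

end H81.Hy
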