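import Pool.Agent.H81.Hy.Grp

/-!
# Sequences with braid relations
-/

set_option autoImplicit false

namespace H81.Hy

variable {G : Type*} [Group G]

/-- the braid relations for `s 0, ..., s (N - 1)` -/
def BR (N : ℕ) (s : ℕ → G) : Prop :=
  (∀ i j, i + 2 ≤ j → j < N → s i * s j = s j * s i) ∧
    ∀ i, i + 1 < N → s i * s (i + 1) * s i = s (i + 1) * s i * s (i + 1)

theorem eq_of_comm_braid {a b : G} (h1 : a * b = b * a) (h2 : a * b * a = b * a * b) : a = b := by
  rw [h1] at h2
  exact mul_left_cancel h2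

/-- the product `s 0 * ... * s (k - 1)` -/
def D (s : ℕ → G) : ℕ → G
  | 0 => 1
  | k + 1 => D s k * s k

theorem D_comm {N : ℕ} {s : ℕ → G} (h : BR N s) (k j : ℕ) (hk : k + 1 ≤ j) (hj : j < N) :
    D s k * s j = s j * D s k := by
  induction k with
  | zero => simp [D]
  | succ k ih =>
    show D s k * s k * s j = s j * (D s k * s k)
    rw [mul_assoc, h.1 k j (by omega) hj, ← mul_assoc, ih (by omega), mul_assoc]

theorem D_shift {N : ℕ} {s : ℕ → G} (h : BR N s) (k i : ℕ) (hk : i + 1 < k) (hN : k ≤ N) :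
    D s k * s i = s (i + 1) * D s k := by
  induction k with
  | zero => omega
  | succ k ih =>
    rcases Nat.lt_or_ge (i + 1) k with h1 | h1
    · show D s k * s k * s i = s (i + 1) * (D s k * s k)
      rw [mul_assoc, ← h.1 i k (by omega) (by omega), ← mul_assoc, ih h1 (by omega), mul_assoc]
    · have hk' : k = i + 1 := by omega
      subst hk'
      show D s i * s i * s (i + 1) * s i = s (i + 1) * (D s i * s i * s (i + 1))
      have h2 := h.2 i (by omega)
      have h3 := D_comm h i (i + 1) le_rfl (by omega)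
      calc D s i * s i * s (i + 1) * s i = D s i * (s i * s (i + 1) * s i) := by group
        _ = (D s i * s (i + 1)) * (s i * s (i + 1)) := by rw [h2]; group
        _ = s (i + 1) * (D s i * s i * s (i + 1)) := by rw [h3]; group

theorem conj_shift {N : ℕ} {s : ℕ → G} (h : BR N s) (i : ℕ) (hi : i + 1 < N) :
    D s N * s i * (D s N)⁻¹ = s (i + 1) := by
  rw [D_shift h N i hi le_rfl, mul_inv_cancel_right]

theorem conj_shift_pow {N : ℕ} {s : ℕ → G} (h : BR N s) (i m : ℕ) (hi : i + m < N) :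
    D s N ^ m * s i * (D s N ^ m)⁻¹ = s (i + m) := by
  induction m with
  | zero => simp
  | succ m ih =>
    rw [pow_succ', mul_inv_rev]
    calc D s N * D s N ^ m * s i * ((D s N ^ m)⁻¹ * (D s N)⁻¹) =
        D s N * (D s N ^ m * s i * (D s N ^ m)⁻¹) * (D s N)⁻¹ := by group
      _ = s (i + (m + 1)) := by
        rw [ih (by omega), conj_shift h (i + m) (by omega)]; rfl

theorem eq_succ_up {N : ℕ} {s : ℕ → G} (h : BR N s) {i : ℕ} (hi : i + 2 < N)
    (he : s i = s (i + 1)) : s (i + 1) = s (i + 2) := by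
  rw [← conj_shift h i (by omega), ← conj_shift h (i + 1) (by omega), ← he]

theorem eq_succ_down {N : ℕ} {s : ℕ → G} (h : BR N s) {i : ℕ} (hi : i + 2 < N)
    (he : s (i + 1) = s (i + 2)) : s i = s (i + 1) := by
  have h1 := conj_shift h i (by omega)
  have h2 := conj_shift h (i + 1) (by omega)
  rw [he, ← h2] at h1
  simpa using h1

theorem eq_zero_one_of {N : ℕ} {s : ℕ → G} (h : BR N s) {i : ℕ} (hi : i + 1 < N)
    (he : s i = s (i + 1)) : s 0 = s 1 := by
  induction i with
  | zero => exact he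
  | succ i ih => exact ih (by omega) (eq_succ_down h hi he)

theorem all_eq {N : ℕ} {s : ℕ → G} (h : BR N s) (he : s 0 = s 1) (i : ℕ) (hi : i < N) :
    s i = s 0 := by
  have h1 : ∀ i, i + 1 < N → s i = s (i + 1) := by
    intro i
    induction i with
    | zero => intro _; exact he
    | succ i ih => intro hi; exact eq_succ_up h hi (ih (by omega))
  induction i with
  | zero => rfl
  | succ i ih => rw [← h1 i hi]; exact ih (by omega)

/-- if two generators coincide, all coincide (`N ≥ 4`) -/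
theorem eq_of_eq {N : ℕ} {s : ℕ → G} (h : BR N s) (hN : 4 ≤ N) (i j : ℕ) (hij : i < j)
    (hj : j < N) (he : s i = s j) : s 0 = s 1 := by
  rcases Nat.lt_or_ge (i + 1) j with h1 | h1
  · rcases Nat.lt_or_ge (j + 1) N with h2 | h2
    · -- `s (j + 1)` commutes with `s i = s j`
      have h3 := h.1 i (j + 1) (by omega) h2
      rw [he] at h3
      exact eq_zero_one_of h h2 (eq_of_comm_braid h3 (h.2 j h2))
    · rcases Nat.eq_zero_or_pos i with h0 | h0
      · subst h0
        have h3 := h.1 1 j (by omega) hj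
        rw [← he] at h3
        exact eq_of_comm_braid h3.symm (h.2 0 (by omega))
      · obtain ⟨i, rfl⟩ : ∃ i', i = i' + 1 := ⟨i - 1, by omega⟩
        have h3 := h.1 i j (by omega) hj
        rw [← he] at h3
        exact eq_zero_one_of h (i := i) (by omega) (eq_of_comm_braid h3 (h.2 i (by omega)))
  · have : j = i + 1 := by omega
    subst this
    exact eq_zero_one_of h hj he

theorem fin_shift {N : ℕ} {s : ℕ → G} (h : BR N s) (i : ℕ) (hi : i < N) :
    IsOfFinOrder (s i) ↔ IsOfFinOrder (s 0) := by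
  have h1 := conj_shift_pow h 0 i (by omega)
  rw [zero_add] at h1
  constructor
  · intro h2
    rw [← h1] at h2
    have h3 := HL.fin_conj h2 (D s N ^ i)
    have e : (D s N ^ i)⁻¹ * (D s N ^ i * s 0 * (D s N ^ i)⁻¹) * D s N ^ i = s 0 := by group
    rwa [e] at h3
  · intro h2
    have h3 := HL.fin_conj h2 (D s N ^ i)⁻¹
    rw [inv_inv, h1] at h3
    exact h3

/-- the subgroup generated by `s 0, ..., s (m - 2)`: the image of the braid group on `m` strands -/
def Pb (s : ℕ → G) (m : ℕ) : Subgroup G := Subgroup.closure {g | ∃ i, i + 1 < m ∧ g = s i}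

theorem mem_Pb (s : ℕ → G) {m i : ℕ} (h : i + 1 < m) : s i ∈ Pb s m :=
  Subgroup.subset_closure ⟨i, h, rfl⟩

namespace HL

variable (H : HL G)

include H

/-- the case of generators of infinite order -/
theorem inf_case {N : ℕ} {s : ℕ → G} (h : BR N s) (hN : 4 ≤ N) (h0 : ¬ IsOfFinOrder (s 0)) :
    ∃ z ∈ Pb s (N + 1), ¬ IsOfFinOrder z ∧ ∀ a ∈ Pb s (N + 1), a * z = z * a := by
  have hinf : ∀ i, i < N → ¬ IsOfFinOrder (s i) := fun i hi => by rwa [fin_shift h i hi]
  have h1 : ∀ i, i < N → ∃ p q : ℤ, p ≠ 0 ∧ q ≠ 0 ∧ s 0 ^ p = s i ^ q := by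
    intro i hi
    rcases Nat.lt_or_ge i 2 with h2 | h2
    · rcases Nat.eq_zero_or_pos i with h3 | h3
      · subst h3
        exact ⟨1, 1, one_ne_zero, one_ne_zero, rfl⟩
      · have : i = 1 := by omega
        subst this
        obtain ⟨p, q, hp, hq, e1⟩ := H.comm_pow (s 0) (s 3) h0 (hinf 3 (by omega))
          (h.1 0 3 (by omega) (by omega))
        obtain ⟨p', q', hp', hq', e2⟩ := H.comm_pow (s 1) (s 3) (hinf 1 hi) (hinf 3 (by omega))
          (h.1 1 3 (by omega) (by omega))
        refine ⟨p * q', p' * q, mul_ne_zero hp hq', mul_ne_zero hp' hq, ?_⟩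
        rw [zpow_mul, e1, zpow_mul, e2, ← zpow_mul, ← zpow_mul, mul_comm]
    · exact H.comm_pow (s 0) (s i) h0 (hinf i hi) (h.1 0 i (by omega) hi)
  choose! p q hp hq hpq using h1
  set P : ℤ := ∏ i ∈ Finset.range N, p i with hP
  have hP0 : P ≠ 0 := Finset.prod_ne_zero_iff.2 fun i hi => hp i (Finset.mem_range.1 hi)
  refine ⟨s 0 ^ P, Subgroup.zpow_mem _ (mem_Pb s (by omega)) P, not_fin_zpow h0 hP0, ?_⟩
  have h2 : Pb s (N + 1) ≤ Subgroup.centralizer {s 0 ^ P} := by
    unfold Pb
    rw [Subgroup.closure_le]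
    rintro g ⟨i, hi, rfl⟩
    have hi' : i < N := by omega
    show s i ∈ Subgroup.centralizer {s 0 ^ P}
    rw [Subgroup.mem_centralizer_iff]
    intro y hy
    rw [Set.mem_singleton_iff] at hy
    rw [hy]
    obtain ⟨c, hc⟩ : p i ∣ P := Finset.dvd_prod_of_mem p (Finset.mem_range.2 hi')
    rw [hc, zpow_mul, hpq i hi', ← zpow_mul]
    exact (Commute.refl (s i)).zpow_left _
  intro a ha
  exact ((Subgroup.mem_centralizer_iff.1 (h2 ha)) _ rfl).symm

/-- the case of generators of finite order -/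
theorem tors_case {N : ℕ} {s : ℕ → G} (h : BR N s) (h0 : IsOfFinOrder (s 0)) (m : ℕ)
    (hm : 2 * m ≤ N + 1) : (Pb s m : Set G).Finite := by
  have hfin : ∀ i, i < N → IsOfFinOrder (s i) := fun i hi => by rwa [fin_shift h i hi]
  set B : Subgroup G := Subgroup.closure {g | ∃ i, i + 1 < m ∧ g = s (i + m)} with hB
  have hc : ∀ a ∈ Pb s m, ∀ b ∈ B, a * b = b * a := by
    have h1 : Pb s m ≤ Subgroup.centralizer (B : Set G) := by
      unfold Pb
      rw [Subgroup.closure_le]
      rintro g ⟨i, hi, rfl⟩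
      show s i ∈ Subgroup.centralizer (B : Set G)
      rw [hB, Subgroup.centralizer_closure, Subgroup.mem_centralizer_iff]
      rintro y ⟨j, hj, rfl⟩
      exact (h.1 i (j + m) (by omega) (by omega)).symm
    intro a ha b hb
    exact ((Subgroup.mem_centralizer_iff.1 (h1 ha)) b hb).symm
  have hT : ∀ t ∈ {g | ∃ i, i + 1 < m ∧ g = s i}, IsOfFinOrder t := by
    rintro t ⟨i, hi, rfl⟩
    exact hfin i (by omega)
  rcases H.comm_finite (Pb s m) B _ hT rfl hc with h1 | h1
  · exact h1
  · have h2 : Pb s m ≤ B.comap (MulAut.conj (D s N ^ m)).toMonoidHom := by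
      unfold Pb
      rw [Subgroup.closure_le]
      rintro g ⟨i, hi, rfl⟩
      show (MulAut.conj (D s N ^ m)) (s i) ∈ B
      rw [MulAut.conj_apply, conj_shift_pow h i m (by omega)]
      exact Subgroup.subset_closure ⟨i, hi, rfl⟩
    refine Set.Finite.subset (Set.Finite.preimage
      (f := fun g => (MulAut.conj (D s N ^ m)) g) ?_ h1) h2
    exact (MulEquiv.injective _).injOn

end HL

end H81.Hy
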