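import Pool.Agent.H81.Hy.Main

/-!
# The Burau representation at roots of unity
-/

set_option autoImplicit false
set_option linter.unusedSimpArgs false

namespace H81.Hy

/-- an automorphism with a vector of unbounded orbit -/
theorem inf_order {V : Type*} [AddCommGroup V] [Module ℂ V] (M : V ≃ₗ[ℂ] V) (u : V)
    (φ : V →ₗ[ℂ] ℂ) (τ : ℝ) (hτ : 2 ≤ τ) (h1 : M (M u) = (τ : ℂ) • M u - u) (h2 : φ u = 0)
    (h3 : φ (M u) ≠ 0) : ¬ IsOfFinOrder M := by
  -- the sequence
  have key : ∀ j : ℕ, ∃ a b : ℝ, (M ^ j) u = (b : ℂ) • M u - (a : ℂ) • u ∧ (j : ℝ) ≤ b ∧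
      0 ≤ a ∧ a + 1 ≤ b ∨ j = 0 := by
    intro j
    induction j with
    | zero => exact ⟨0, 0, Or.inr rfl⟩
    | succ j ih =>
      obtain ⟨a, b, hab⟩ := ih
      rcases hab with ⟨e, hb, ha, hab⟩ | h0
      · refine ⟨b, τ * b - a, Or.inl ⟨?_, ?_, ?_, ?_⟩⟩
        · rw [pow_succ']
          show M ((M ^ j) u) = _
          rw [e, map_sub, map_smul, map_smul, h1]
          push_cast
          module
        · push_cast
          nlinarith
        · linarith
        · nlinarith
      · subst h0
        refine ⟨0, 1, Or.inl ⟨?_, ?_, le_rfl, ?_⟩⟩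
        · simp
        · norm_num
        · norm_num
  intro hf
  obtain ⟨m, hm, hm1⟩ := isOfFinOrder_iff_pow_eq_one.1 hf
  obtain ⟨a, b, hab⟩ := key m
  rcases hab with ⟨e, hb, ha, hab⟩ | h0
  · rw [hm1] at e
    have e' : u = (b : ℂ) • M u - (a : ℂ) • u := e
    have h4 := congrArg φ e'
    rw [map_sub, map_smul, map_smul, h2, smul_zero, sub_zero, smul_eq_mul] at h4
    have h5 : (b : ℂ) ≠ 0 := by
      have : (0 : ℝ) < b := by
        have : (1 : ℝ) ≤ m := by exact_mod_cast hm
        linarith
      exact_mod_cast this.ne'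
    exact (mul_ne_zero h5 h3) h4.symm
  · omega

/-- the generator `σ_(i + 1)` in the Burau representation, acting on the coordinates `i` and
`i + 1` of sequences -/
noncomputable def bur (t : ℂ) (ht : t ≠ 0) (i : ℕ) : (ℕ → ℂ) ≃ₗ[ℂ] (ℕ → ℂ) where
  toFun x j := if j = i then (1 - t) * x i + t * x (i + 1) else if j = i + 1 then x i else x j
  map_add' x y := by
    funext j
    simp only [Pi.add_apply]
    split_ifs <;> ring
  map_smul' c x := by
    funext j
    simp only [Pi.smul_apply, smul_eq_mul, RingHom.id_apply]
    split_ifs <;> ring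
  invFun y j := if j = i then y (i + 1) else if j = i + 1 then
    t⁻¹ * (y i - (1 - t) * y (i + 1)) else y j
  left_inv x := by
    funext j
    by_cases h1 : j = i
    · subst h1; simp
    · by_cases h2 : j = i + 1
      · subst h2
        simp
        field_simp
      · simp [h1, h2]
  right_inv y := by
    funext j
    by_cases h1 : j = i
    · subst h1
      simp
      field_simp
      ring
    · by_cases h2 : j = i + 1
      · subst h2; simp
      · simp [h1, h2]

theorem bur_apply (t : ℂ) (ht : t ≠ 0) (i : ℕ) (x : ℕ → ℂ) (j : ℕ) : bur t ht i x j =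
    if j = i then (1 - t) * x i + t * x (i + 1) else if j = i + 1 then x i else x j := rfl

theorem bur_comm (t : ℂ) (ht : t ≠ 0) (i j : ℕ) (h : i + 2 ≤ j) :
    bur t ht i * bur t ht j = bur t ht j * bur t ht i := by
  apply LinearEquiv.ext
  intro x
  funext l
  show bur t ht i (bur t ht j x) l = bur t ht j (bur t ht i x) l
  simp only [bur_apply]
  have h1 : i ≠ j := by omega
  have h2 : i ≠ j + 1 := by omega
  have h3 : i + 1 ≠ j := by omega
  have h4 : i + 1 ≠ j + 1 := by omega
  by_cases e1 : l = i
  · subst e1; simp [h1, h2, h3, h1.symm, h3.symm]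
  · by_cases e2 : l = i + 1
    · subst e2; simp [h1, h2, h3, h1.symm, h3.symm]
    · by_cases e3 : l = j
      · subst e3; simp [h1, h2, h3, h1.symm, h3.symm, h2.symm]
      · by_cases e4 : l = j + 1
        · subst e4; simp [h1, h2, h3, h1.symm, h3.symm, h2.symm]
        · simp [e1, e2, e3, e4]

theorem bur_braid (t : ℂ) (ht : t ≠ 0) (i : ℕ) :
    bur t ht i * bur t ht (i + 1) * bur t ht i =
      bur t ht (i + 1) * bur t ht i * bur t ht (i + 1) := by
  apply LinearEquiv.ext
  intro x
  funext l
  show bur t ht i (bur t ht (i + 1) (bur t ht i x)) l =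
    bur t ht (i + 1) (bur t ht i (bur t ht (i + 1) x)) l
  simp only [bur_apply]
  have h1 : i + 1 + 1 ≠ i := by omega
  have h2 : i ≠ i + 1 + 1 := by omega
  have h3 : i + 1 ≠ i := by omega
  have h4 : i + 1 + 1 ≠ i + 1 := by omega
  by_cases e1 : l = i
  · subst e1
    simp only [h1, h2, h3, h4, if_true, if_false, if_neg]
    simp
    ring
  · by_cases e2 : l = i + 1
    · subst e2
      simp only [h1, h2, h3, h4, if_true, if_false, if_neg]
      simp
    · by_cases e3 : l = i + 1 + 1
      · subst e3
        simp only [h1, h2, h3, h4, if_true, if_false, if_neg]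
        simp
      · simp only [e1, e2, e3, if_false]

/-- powers -/
theorem bur_pow (t : ℂ) (ht : t ≠ 0) (ht1 : 1 + t ≠ 0) (k : ℕ) (hk : (-t) ^ k = 1) (i : ℕ) :
    bur t ht i ^ k = 1 := by
  have key : ∀ (m : ℕ) (x : ℕ → ℂ), (bur t ht i ^ m) x = fun j =>
      if j = i then (1 + t)⁻¹ * (x i + t * x (i + 1) + t * (-t) ^ m * (x i - x (i + 1)))
      else if j = i + 1 then
        (1 + t)⁻¹ * (x i + t * x (i + 1) - (-t) ^ m * (x i - x (i + 1)))
      else x j := by
    intro m
    induction m with
    | zero =>
      intro x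
      funext j
      show x j = _
      by_cases e1 : j = i
      · subst e1
        simp
        field_simp
        ring
      · by_cases e2 : j = i + 1
        · subst e2
          simp
          field_simp
          ring
        · simp [e1, e2]
    | succ m ih =>
      intro x
      funext j
      rw [pow_succ']
      show bur t ht i ((bur t ht i ^ m) x) j = _
      rw [ih x, bur_apply]
      have h3 : i + 1 ≠ i := by omega
      by_cases e1 : j = i
      · subst e1
        simp
        field_simp
        ring
      · by_cases e2 : j = i + 1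
        · subst e2
          simp only [h3, if_true, if_false]
          ring
        · simp only [e1, e2, if_false]
  apply LinearEquiv.ext
  intro x
  rw [key k x]
  funext j
  show _ = x j
  rw [hk]
  by_cases e1 : j = i
  · subst e1
    simp
    field_simp
    ring
  · by_cases e2 : j = i + 1
    · subst e2
      simp
      field_simp
      ring
    · simp [e1, e2]

end H81.Hy
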