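import Pool.Agent.H81.Hy.Burau

/-!
# Elements of infinite order in the Burau representation
-/

set_option autoImplicit false
set_option linter.unusedSimpArgs false

namespace H81.Hy

theorem bur_inv_apply (t : ℂ) (ht : t ≠ 0) (i : ℕ) (y : ℕ → ℂ) (j : ℕ) :
    (bur t ht i)⁻¹ y j = if j = i then y (i + 1) else if j = i + 1 then
      t⁻¹ * (y i - (1 - t) * y (i + 1)) else y j := rfl

/-- the commutator of `σ_1 σ_3` and `σ_2` -/
noncomputable def m4 (t : ℂ) (ht : t ≠ 0) : (ℕ → ℂ) ≃ₗ[ℂ] (ℕ → ℂ) :=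
  bur t ht 0 * bur t ht 2 * bur t ht 1 * (bur t ht 0)⁻¹ * (bur t ht 2)⁻¹ * (bur t ht 1)⁻¹

theorem m4_apply (t : ℂ) (ht : t ≠ 0) (x : ℕ → ℂ) :
    m4 t ht x 0 = (1 - t) * x 0 + (t - t ^ 2) * x 2 + t ^ 2 * x 3 ∧
    m4 t ht x 1 = x 2 ∧
    m4 t ht x 2 = (t⁻¹ - 1) * x 0 + t⁻¹ * x 1 + (-2 * t⁻¹ + 3 - t) * x 2 + (t - 1) * x 3 ∧
    m4 t ht x 3 = t⁻¹ * x 0 + (1 - t⁻¹) * x 2 ∧ ∀ j, m4 t ht x (j + 4) = x (j + 4) := by
  have e : ∀ j, m4 t ht x j = bur t ht 0 (bur t ht 2 (bur t ht 1 ((bur t ht 0)⁻¹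
    ((bur t ht 2)⁻¹ ((bur t ht 1)⁻¹ x))))) j := fun j => rfl
  refine ⟨?_, ?_, ?_, ?_, ?_⟩
  · rw [e]
    simp only [bur_apply, bur_inv_apply]
    norm_num
    field_simp
    ring
  · rw [e]
    simp only [bur_apply, bur_inv_apply]
    norm_num
  · rw [e]
    simp only [bur_apply, bur_inv_apply]
    norm_num
    field_simp
    ring
  · rw [e]
    simp only [bur_apply, bur_inv_apply]
    norm_num
    field_simp
    ring
  · intro j
    rw [e]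
    have h0 : j + 4 ≠ 0 := by omega
    have h1 : j + 4 ≠ 1 := by omega
    have h2 : j + 4 ≠ 2 := by omega
    have h3 : j + 4 ≠ 3 := by omega
    simp only [bur_apply, bur_inv_apply, h0, h1, h2, h3, if_false, zero_add, Nat.reduceAdd]

/-- the start vector -/
noncomputable def u4 (t : ℂ) : ℕ → ℂ
  | 1 => -1
  | 2 => t⁻¹
  | _ => 0

theorem m4_inf (t : ℂ) (ht : t ≠ 0) (ht1 : t ≠ 1) (τ : ℝ) (hτ : 2 ≤ τ)
    (h : (τ : ℂ) = 2 - 2 * t - 2 * t⁻¹) : ¬ IsOfFinOrder (m4 t ht) := by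
  obtain ⟨a0, a1, a2, a3, a4⟩ := m4_apply t ht (u4 t)
  obtain ⟨b0, b1, b2, b3, b4⟩ := m4_apply t ht (m4 t ht (u4 t))
  have v0 : u4 t 0 = 0 := rfl
  have v1 : u4 t 1 = -1 := rfl
  have v2 : u4 t 2 = t⁻¹ := rfl
  have v3 : u4 t 3 = 0 := rfl
  have v4 : ∀ j, u4 t (j + 4) = 0 := fun j => rfl
  rw [v0, v2, v3] at a0
  rw [v2] at a1
  rw [v0, v1, v2, v3] at a2
  rw [v0, v2] at a3
  refine inf_order (m4 t ht) (u4 t) (LinearMap.proj 0) τ hτ ?_ rfl ?_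
  · funext j
    have e : ((τ : ℂ) • m4 t ht (u4 t) - u4 t) j = τ * m4 t ht (u4 t) j - u4 t j := rfl
    rw [e]
    match j with
    | 0 =>
      rw [b0, a0, a2, a3, v0, h]
      field_simp
      ring
    | 1 =>
      rw [b1, a1, a2, v1, h]
      field_simp
      ring
    | 2 =>
      rw [b2, a0, a1, a2, a3, v2, h]
      field_simp
      ring
    | 3 =>
      rw [b3, a0, a2, a3, v3, h]
      field_simp
      ring
    | j + 4 =>
      rw [b4, a4, v4]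
      simp
  · show m4 t ht (u4 t) 0 ≠ 0
    rw [a0]
    have e : (1 - t) * 0 + (t - t ^ 2) * t⁻¹ + t ^ 2 * 0 = 1 - t := by
      field_simp
      ring
    rw [e]
    exact sub_ne_zero.2 ht1.symm

/-- sequences with six entries -/
def V (a b c d e f : ℂ) : ℕ → ℂ
  | 0 => a
  | 1 => b
  | 2 => c
  | 3 => d
  | 4 => e
  | 5 => f
  | _ => 0

theorem bur_V0 (t : ℂ) (ht : t ≠ 0) (a b c d e f : ℂ) :
    bur t ht 0 (V a b c d e f) = V ((1 - t) * a + t * b) a c d e f := by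
  funext j
  rw [bur_apply]
  match j with
  | 0 => simp [V]
  | 1 => simp [V]
  | 2 => simp [V]
  | 3 => simp [V]
  | 4 => simp [V]
  | 5 => simp [V]
  | j + 6 => simp [V]

theorem bur_V1 (t : ℂ) (ht : t ≠ 0) (a b c d e f : ℂ) :
    bur t ht 1 (V a b c d e f) = V a ((1 - t) * b + t * c) b d e f := by
  funext j
  rw [bur_apply]
  match j with
  | 0 => simp [V]
  | 1 => simp [V]
  | 2 => simp [V]
  | 3 => simp [V]
  | 4 => simp [V]
  | 5 => simp [V]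
  | j + 6 => simp [V]

theorem bur_V2 (t : ℂ) (ht : t ≠ 0) (a b c d e f : ℂ) :
    bur t ht 2 (V a b c d e f) = V a b ((1 - t) * c + t * d) c e f := by
  funext j
  rw [bur_apply]
  match j with
  | 0 => simp [V]
  | 1 => simp [V]
  | 2 => simp [V]
  | 3 => simp [V]
  | 4 => simp [V]
  | 5 => simp [V]
  | j + 6 => simp [V]

theorem bur_V3 (t : ℂ) (ht : t ≠ 0) (a b c d e f : ℂ) :
    bur t ht 3 (V a b c d e f) = V a b c ((1 - t) * d + t * e) d f := by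
  funext j
  rw [bur_apply]
  match j with
  | 0 => simp [V]
  | 1 => simp [V]
  | 2 => simp [V]
  | 3 => simp [V]
  | 4 => simp [V]
  | 5 => simp [V]
  | j + 6 => simp [V]

theorem bur_V4 (t : ℂ) (ht : t ≠ 0) (a b c d e f : ℂ) :
    bur t ht 4 (V a b c d e f) = V a b c d ((1 - t) * e + t * f) e := by
  funext j
  rw [bur_apply]
  match j with
  | 0 => simp [V]
  | 1 => simp [V]
  | 2 => simp [V]
  | 3 => simp [V]
  | 4 => simp [V]
  | 5 => simp [V]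
  | j + 6 => simp [V]

theorem st0 (t : ℂ) (ht : t ≠ 0) (h : t ^ 2 - t + 1 = 0) :
    bur t ht 3 (V 0 0 0 (-1 + 1 * t) (-1) (-1 * t)) =
      V 0 0 0 0 (-1 + 1 * t) (-1 * t) := by
  rw [bur_V3]
  congr 1
  linear_combination (-1) * h

theorem st1 (t : ℂ) (ht : t ≠ 0) (h : t ^ 2 - t + 1 = 0) :
    bur t ht 2 (V 0 0 0 (-1 + 1 * t) (-1) (-1 * t)) =
      V 0 0 (-1) 0 (-1) (-1 * t) := by
  rw [bur_V2]
  congr 1
  linear_combination (1) * h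

theorem st2 (t : ℂ) (ht : t ≠ 0) (h : t ^ 2 - t + 1 = 0) :
    bur t ht 1 (V 0 (-1) (-1 * t) 0 (-1) (-1 * t)) =
      V 0 0 (-1) 0 (-1) (-1 * t) := by
  rw [bur_V1]
  congr 1
  linear_combination (-1) * h

theorem st3 (t : ℂ) (ht : t ≠ 0) (h : t ^ 2 - t + 1 = 0) :
    bur t ht 3 (V 0 (-1) (-1 * t) (-1) (-1 * t) (-1 * t)) =
      V 0 (-1) (-1 * t) 0 (-1) (-1 * t) := by
  rw [bur_V3]
  congr 1
  linear_combination (-1) * h

theorem st4 (t : ℂ) (ht : t ≠ 0) (h : t ^ 2 - t + 1 = 0) :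
    bur t ht 2 (V 0 (-1) (-1 * t) (-1) (-1 * t) (-1 * t)) =
      V 0 (-1) (-1 + -1 * t) (-1 * t) (-1 * t) (-1 * t) := by
  rw [bur_V2]
  congr 1
  linear_combination (1) * h

theorem st5 (t : ℂ) (ht : t ≠ 0) (h : t ^ 2 - t + 1 = 0) :
    bur t ht 1 (V 0 (-1 + -1 * t) (-1 * t) (-1 * t) (-1 * t) (-1 * t)) =
      V 0 (-1) (-1 + -1 * t) (-1 * t) (-1 * t) (-1 * t) := by
  rw [bur_V1]
  congr 1
  linear_combination (0) * h

theorem st6 (t : ℂ) (ht : t ≠ 0) (h : t ^ 2 - t + 1 = 0) :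
    bur t ht 0 (V (-1 + -1 * t) (1 + -2 * t) (-1 * t) (-1 * t) (-1 * t) (-1 * t)) =
      V 0 (-1 + -1 * t) (-1 * t) (-1 * t) (-1 * t) (-1 * t) := by
  rw [bur_V0]
  congr 1
  linear_combination (-1) * h

theorem st7 (t : ℂ) (ht : t ≠ 0) (h : t ^ 2 - t + 1 = 0) :
    bur t ht 1 (V (-1 + -1 * t) (1 + -2 * t) (-1 * t) (-1 * t) (-1 * t) (-1 * t)) =
      V (-1 + -1 * t) (-2 * t) (1 + -2 * t) (-1 * t) (-1 * t) (-1 * t) := by
  rw [bur_V1]
  congr 1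
  linear_combination (1) * h

theorem st8 (t : ℂ) (ht : t ≠ 0) (h : t ^ 2 - t + 1 = 0) :
    bur t ht 2 (V (-1 + -1 * t) (-2 * t) (-1 * t) (-2 * t) (-1 * t) (-1 * t)) =
      V (-1 + -1 * t) (-2 * t) (1 + -2 * t) (-1 * t) (-1 * t) (-1 * t) := by
  rw [bur_V2]
  congr 1
  linear_combination (-1) * h

theorem st9 (t : ℂ) (ht : t ≠ 0) (h : t ^ 2 - t + 1 = 0) :
    bur t ht 3 (V (-1 + -1 * t) (-2 * t) (-1 * t) (-2 * t) (-1 * t) (-1 * t)) =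
      V (-1 + -1 * t) (-2 * t) (-1 * t) (-1 + -1 * t) (-2 * t) (-1 * t) := by
  rw [bur_V3]
  congr 1
  linear_combination (1) * h

theorem st10 (t : ℂ) (ht : t ≠ 0) (h : t ^ 2 - t + 1 = 0) :
    bur t ht 1 (V (-1 + -1 * t) (-2 * t) (-1 * t) (-1 + -1 * t) (-2 * t) (-1 * t)) =
      V (-1 + -1 * t) (-1 + -1 * t) (-2 * t) (-1 + -1 * t) (-2 * t) (-1 * t) := by
  rw [bur_V1]
  congr 1
  linear_combination (1) * h

theorem st11 (t : ℂ) (ht : t ≠ 0) (h : t ^ 2 - t + 1 = 0) :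
    bur t ht 2 (V (-1 + -1 * t) (-1 + -1 * t) (-1 + -1 * t) (-1 + -2 * t) (-2 * t) (-1 * t)) =
      V (-1 + -1 * t) (-1 + -1 * t) (-2 * t) (-1 + -1 * t) (-2 * t) (-1 * t) := by
  rw [bur_V2]
  congr 1
  linear_combination (-1) * h

theorem st12 (t : ℂ) (ht : t ≠ 0) (h : t ^ 2 - t + 1 = 0) :
    bur t ht 3 (V (-1 + -1 * t) (-1 + -1 * t) (-1 + -1 * t) (-1 + -2 * t) (-2 * t) (-1 * t)) =
      V (-1 + -1 * t) (-1 + -1 * t) (-1 + -1 * t) (-1 + -1 * t) (-1 + -2 * t) (-1 * t) := by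
  rw [bur_V3]
  congr 1
  linear_combination (0) * h

theorem st13 (t : ℂ) (ht : t ≠ 0) (h : t ^ 2 - t + 1 = 0) :
    bur t ht 4 (V (-1 + -1 * t) (-1 + -1 * t) (-1 + -1 * t) (-1 + -1 * t) (-1 + -2 * t) (-1 * t)) =
      V (-1 + -1 * t) (-1 + -1 * t) (-1 + -1 * t) (-1 + -1 * t) (-2) (-1 + -2 * t) := by
  rw [bur_V4]
  congr 1
  linear_combination (1) * h

/-- the word of length 14 -/
noncomputable def m6 (t : ℂ) (ht : t ≠ 0) : (ℕ → ℂ) ≃ₗ[ℂ] (ℕ → ℂ) :=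
  bur t ht 4 * bur t ht 3 * (bur t ht 2)⁻¹ * bur t ht 1 * bur t ht 3 * (bur t ht 2)⁻¹ * bur t ht 1 * (bur t ht 0)⁻¹ * (bur t ht 1)⁻¹ * bur t ht 2 * (bur t ht 3)⁻¹ * (bur t ht 1)⁻¹ * bur t ht 2 * (bur t ht 3)⁻¹

theorem inv_of {f : (ℕ → ℂ) ≃ₗ[ℂ] (ℕ → ℂ)} {x y : ℕ → ℂ} (h : f x = y) : f⁻¹ y = x := by
  rw [← h]
  exact LinearEquiv.symm_apply_apply f x

theorem m6_u (t : ℂ) (ht : t ≠ 0) (h : t ^ 2 - t + 1 = 0) :
    m6 t ht (V 0 0 0 0 (-1 + 1 * t) (-1 * t)) =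
      V (-1 + -1 * t) (-1 + -1 * t) (-1 + -1 * t) (-1 + -1 * t) (-2) (-1 + -2 * t) := by
  unfold m6
  simp only [LinearEquiv.mul_apply]
  rw [inv_of (st0 t ht h),
    st1 t ht h,
    inv_of (st2 t ht h),
    inv_of (st3 t ht h),
    st4 t ht h,
    inv_of (st5 t ht h),
    inv_of (st6 t ht h),
    st7 t ht h,
    inv_of (st8 t ht h),
    st9 t ht h,
    st10 t ht h,
    inv_of (st11 t ht h),
    st12 t ht h,
    st13 t ht h]

theorem bur_one (t : ℂ) (ht : t ≠ 0) (i : ℕ) (hi : i < 5) :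
    bur t ht i (V 1 1 1 1 1 1) = V 1 1 1 1 1 1 := by
  have e : (1 - t) * 1 + t * 1 = 1 := by ring
  interval_cases i
  · rw [bur_V0, e]
  · rw [bur_V1, e]
  · rw [bur_V2, e]
  · rw [bur_V3, e]
  · rw [bur_V4, e]

theorem m6_one (t : ℂ) (ht : t ≠ 0) : m6 t ht (V 1 1 1 1 1 1) = V 1 1 1 1 1 1 := by
  unfold m6
  simp only [LinearEquiv.mul_apply]
  rw [inv_of (bur_one t ht 3 (by omega)),
    bur_one t ht 2 (by omega),
    inv_of (bur_one t ht 1 (by omega)),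
    inv_of (bur_one t ht 3 (by omega)),
    bur_one t ht 2 (by omega),
    inv_of (bur_one t ht 1 (by omega)),
    inv_of (bur_one t ht 0 (by omega)),
    bur_one t ht 1 (by omega),
    inv_of (bur_one t ht 2 (by omega)),
    bur_one t ht 3 (by omega),
    bur_one t ht 1 (by omega),
    inv_of (bur_one t ht 2 (by omega)),
    bur_one t ht 3 (by omega),
    bur_one t ht 4 (by omega)]

theorem m6_inf (t : ℂ) (ht : t ≠ 0) (h : t ^ 2 - t + 1 = 0) : ¬ IsOfFinOrder (m6 t ht) := by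
  have h0 : m6 t ht (V 0 0 0 0 (-1 + 1 * t) (-1 * t)) =
      V 0 0 0 0 (-1 + 1 * t) (-1 * t) + (-1 - t) • V 1 1 1 1 1 1 := by
    rw [m6_u t ht h]
    funext j
    match j with
    | 0 => simp [V]; ring
    | 1 => simp [V]; ring
    | 2 => simp [V]; ring
    | 3 => simp [V]; ring
    | 4 => simp [V]; ring
    | 5 => simp [V]; ring
    | j + 6 => simp [V]
  refine inf_order (m6 t ht) (V 0 0 0 0 (-1 + 1 * t) (-1 * t)) (LinearMap.proj 0) 2 le_rfl ?_ rfl ?_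
  · rw [h0, map_add, map_smul, m6_one, h0]
    push_cast
    module
  · show m6 t ht (V 0 0 0 0 (-1 + 1 * t) (-1 * t)) 0 ≠ 0
    rw [m6_u t ht h]
    show -1 + -1 * t ≠ 0
    intro h1
    have h2 : t = -1 := by linear_combination -h1
    rw [h2] at h
    norm_num at h

end H81.Hy
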