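import Pool.Agent.H81.Hy.Tor

/-!
# Centralisers of elements of infinite order
-/

set_option autoImplicit false

namespace H81.Hy

variable {G : Type*} [Group G]

/-- finite index from finitely many cosets -/
theorem relIndex_ne_zero_of_near (P A : Subgroup G) (T : Set G) (hT : T.Finite)
    (h : ∀ c ∈ A, ∃ p ∈ P, p * c ∈ T) : P.relIndex A ≠ 0 := by
  classical
  have h' : ∀ c : A, ∃ t : T, ∃ p ∈ P, p * (c : G)⁻¹ = t := by
    intro c
    obtain ⟨p, hp, hpc⟩ := h (c : G)⁻¹ (A.inv_mem c.2)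
    exact ⟨⟨_, hpc⟩, p, hp, rfl⟩
  choose t ht using h'
  have : Finite T := hT
  have hinj : Function.Injective (fun q : A ⧸ P.subgroupOf A => t q.out) := by
    intro q q' hq
    obtain ⟨p, hp, h1⟩ := ht q.out
    obtain ⟨p', hp', h2⟩ := ht q'.out
    have h3 : p * ((q.out : A) : G)⁻¹ = p' * ((q'.out : A) : G)⁻¹ := by
      rw [h1, h2]
      exact congrArg Subtype.val hq
    rw [← QuotientGroup.out_eq' q, ← QuotientGroup.out_eq' q']
    rw [QuotientGroup.eq, Subgroup.mem_subgroupOf]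
    have h4 : (((q.out : A)⁻¹ * q'.out : A) : G) = p⁻¹ * p' := by
      push_cast
      rw [eq_inv_mul_iff_mul_eq, ← mul_assoc, h3]
      group
    rw [h4]
    exact P.mul_mem (P.inv_mem hp) hp'
  have hf : Finite (A ⧸ P.subgroupOf A) := Finite.of_injective _ hinj
  unfold Subgroup.relIndex Subgroup.index
  exact Nat.card_pos.ne'

namespace HL

variable (H : HL G)

theorem exists_lox (g : G) (hg : ¬ IsOfFinOrder g) : ∃ K : ℕ, 1 ≤ K ∧ ∃ x : G,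
    H.l (x⁻¹ * g ^ K * x) + 4 * H.δ + 1 ≤ H.l ((x⁻¹ * g ^ K * x) ^ 2) := by
  have h1 : ∃ a ∈ Subgroup.zpowers g, ¬ H.El a := by
    by_contra hc
    push Not at hc
    have hf := H.finite_of_el (Subgroup.zpowers g) hc
    apply hg
    rw [← finite_zpowers]
    exact hf
  obtain ⟨a, ha, hna⟩ := h1
  obtain ⟨z, rfl⟩ := Subgroup.mem_zpowers_iff.1 ha
  have h2 : ∃ q : ℕ, ¬ H.El (g ^ q) := by
    rcases Int.natAbs_eq z with hz | hz
    · exact ⟨z.natAbs, by rw [← zpow_natCast, ← hz]; exact hna⟩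
    · refine ⟨z.natAbs, fun h => hna ?_⟩
      rw [hz, zpow_neg, zpow_natCast]
      exact h.inv
  obtain ⟨q, hq⟩ := h2
  unfold El at hq
  push Not at hq
  obtain ⟨x, hx⟩ := hq
  have hq1 : 1 ≤ q := by
    by_contra hc
    have : q = 0 := by omega
    rw [this] at hx
    simp [H.one] at hx
  have cp : ∀ n : ℕ, (x⁻¹ * g ^ q * x) ^ n = x⁻¹ * g ^ (q * n) * x := by
    intro n
    rw [pow_mul]
    have := map_pow (MulAut.conj x⁻¹) (g ^ q) n
    simpa using this.symm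
  have h3 : H.l (x⁻¹ * g ^ q * x) + 2 * H.δ + 1 ≤ H.l ((x⁻¹ * g ^ q * x) ^ 2) := by
    rw [cp 2, pow_mul]
    exact hx
  have h4 := H.grow_le _ 1 le_rfl h3 (4 * H.δ) (4 * H.δ + 1)
  refine ⟨q * (4 * H.δ + 1), Nat.mul_pos hq1 (by omega), x, ?_⟩
  rw [← cp, ← pow_mul]
  have e : 4 * H.δ + 1 + (4 * H.δ + 1) = (4 * H.δ + 1) * 2 := by ring
  rw [e] at h4
  omega

section line

variable (h : G) (hh : H.l h + 4 * H.δ + 1 ≤ H.l (h ^ 2))

include hh in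
theorem line_grow (n : ℕ) : H.l (h ^ (n + 1)) + (2 * H.δ + 1) ≤ H.l (h ^ (n + 2)) :=
  H.grow h (2 * H.δ + 1) (by omega) (by omega) n

include hh in
theorem line_large (n : ℕ) : n ≤ H.l (h ^ (n + 1)) := by
  induction n with
  | zero => omega
  | succ n ih =>
    have := H.line_grow h hh n
    rw [show n + 1 + 1 = n + 2 by ring]
    omega

theorem d_neg (m n : ℕ) : H.d (h ^ m)⁻¹ (h ^ n) = H.l (h ^ (m + n)) := by
  unfold d
  rw [inv_inv, pow_add]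

theorem d_negneg (m n : ℕ) : H.d (h ^ m)⁻¹ (h ^ (m + n))⁻¹ = H.l (h ^ n) := by
  unfold d
  rw [inv_inv, ← H.inv (h ^ n), pow_add]
  congr 1
  group

include hh in
theorem line_add (m n : ℕ) : H.l (h ^ m) + H.l (h ^ n) ≤ H.l (h ^ (m + n)) + H.l h := by
  rcases Nat.eq_zero_or_pos m with rfl | hm
  · rw [pow_zero, H.one, zero_add, zero_add]; omega
  rcases Nat.eq_zero_or_pos n with rfl | hn
  · rw [pow_zero, H.one, add_zero, add_zero]; omega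
  have f := H.fp4 1 (h ^ 1)⁻¹ (h ^ m)⁻¹ (h ^ n)
  rw [H.d_one, H.d_one, H.d_one, H.inv, H.inv, H.d_neg, H.d_neg, pow_one] at f
  have e1 : H.d h⁻¹ (h ^ m)⁻¹ = H.l (h ^ (m - 1)) := by
    have := H.d_negneg h 1 (m - 1)
    rwa [show 1 + (m - 1) = m by omega, pow_one] at this
  rw [e1] at f
  obtain ⟨m, rfl⟩ : ∃ m', m = m' + 1 := ⟨m - 1, by omega⟩
  obtain ⟨n, rfl⟩ : ∃ n', n = n' + 1 := ⟨n - 1, by omega⟩
  have g1 := H.line_grow h hh n
  have g2 : H.l (h ^ m) ≤ H.l (h ^ (m + 1)) := by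
    rcases Nat.eq_zero_or_pos m with rfl | hm
    · rw [pow_zero, H.one]; omega
    · obtain ⟨m, rfl⟩ : ∃ m', m = m' + 1 := ⟨m - 1, by omega⟩
      have := H.line_grow h hh m
      rw [show m + 1 + 1 = m + 2 by ring]
      omega
  rw [show m + 1 - 1 = m by omega, show 1 + (n + 1) = n + 2 by ring] at f
  omega

include hh in
/-- elements commuting with `h` are near to the powers of `h` -/
theorem cent_near (c : G) (hc : c * h = h * c) :
    ∃ k : ℤ, H.l (h ^ k * c) ≤ 2 * H.l h + 6 * H.δ := by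
  classical
  set N : ℕ := H.l c + H.l h + 4 * H.δ + 3 with hN
  have aN : H.l c + H.l h + 4 * H.δ + 2 ≤ H.l (h ^ N) := H.line_large h hh _
  have a2N := H.line_add h hh N N
  have hcp : ∀ n : ℕ, c * h ^ n = h ^ n * c := fun n => (Commute.pow_right hc n)
  have hcn : c⁻¹ * h ^ N = h ^ N * c⁻¹ := by
    rw [inv_mul_eq_iff_eq_mul, ← mul_assoc, hcp, mul_inv_cancel_right]
  have hcm : c⁻¹ * (h ^ N)⁻¹ = (h ^ N)⁻¹ * c⁻¹ := by
    rw [← mul_inv_rev, ← mul_inv_rev, hcp]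
  have dAB : H.d (h ^ N)⁻¹ (h ^ N) = H.l (h ^ (N + N)) := H.d_neg h N N
  have dA : H.d 1 (h ^ N)⁻¹ = H.l (h ^ N) := by rw [H.d_one, H.inv]
  have dB : H.d 1 (h ^ N) = H.l (h ^ N) := by rw [H.d_one]
  have dA' : H.d 1 ((h ^ N)⁻¹ * c⁻¹) = H.d (h ^ N)⁻¹ c := by
    rw [H.d_comm (h ^ N)⁻¹ c, H.d_one, ← hcm]; rfl
  have dB' : H.d 1 (h ^ N * c⁻¹) = H.d c (h ^ N) := by
    rw [H.d_one, ← hcn]; rfl
  have dAB' : H.d ((h ^ N)⁻¹ * c⁻¹) (h ^ N * c⁻¹) = H.l (h ^ (N + N)) := by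
    rw [← hcm, ← hcn, H.d_left, dAB]
  have dAA' : H.d (h ^ N)⁻¹ ((h ^ N)⁻¹ * c⁻¹) = H.l c := by
    unfold d; rw [inv_mul_cancel_left, H.inv]
  have dBB' : H.d (h ^ N * c⁻¹) (h ^ N) = H.l c := by
    rw [H.d_comm]; unfold d; rw [inv_mul_cancel_left, H.inv]
  have f1 := H.fp4 1 (h ^ N)⁻¹ ((h ^ N)⁻¹ * c⁻¹) (h ^ N)
  rw [dA', dAB, dA, dB, dAA'] at f1
  have f2 := H.fp4 1 ((h ^ N)⁻¹ * c⁻¹) (h ^ N * c⁻¹) (h ^ N)
  rw [dB', dA', dBB', dB, dAB'] at f2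
  have t1 := H.d_tri 1 c (h ^ N)⁻¹
  rw [dA, H.d_one, H.d_comm c] at t1
  have t2 := H.d_tri (h ^ N)⁻¹ 1 c
  rw [H.d_comm _ 1, dA, H.d_one] at t2
  have hPR : H.d (h ^ N)⁻¹ c + H.d c (h ^ N) ≤ H.l (h ^ (N + N)) + H.l h + 4 * H.δ := by omega
  have hex : ∃ j, H.d (h ^ N)⁻¹ c ≤ H.l (h ^ j) := ⟨N + N, by omega⟩
  set j := Nat.find hex with hj
  have hj1 : H.d (h ^ N)⁻¹ c ≤ H.l (h ^ j) := Nat.find_spec hex
  have hj2 : j ≤ N + N := Nat.find_min' hex (by omega)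
  have hj3 : H.l (h ^ j) ≤ H.d (h ^ N)⁻¹ c + H.l h := by
    rcases Nat.eq_zero_or_pos j with h0 | h0
    · rw [h0, pow_zero, H.one]; omega
    · have h1 : ¬ H.d (h ^ N)⁻¹ c ≤ H.l (h ^ (j - 1)) := Nat.find_min hex (by omega)
      have h2 := H.mul (h ^ (j - 1)) h
      rw [← pow_succ, show j - 1 + 1 = j by omega] at h2
      omega
  have hadd := H.line_add h hh j (N + N - j)
  rw [show j + (N + N - j) = N + N by omega] at hadd
  have dAY : H.d (h ^ N)⁻¹ ((h ^ N)⁻¹ * h ^ j) = H.l (h ^ j) := by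
    unfold d; rw [inv_mul_cancel_left]
  have dYB : H.d ((h ^ N)⁻¹ * h ^ j) (h ^ N) = H.l (h ^ (N + N - j)) := by
    unfold d
    congr 1
    rw [mul_inv_rev, inv_inv, mul_assoc, ← pow_add, inv_mul_eq_iff_eq_mul, ← pow_add]
    congr 1
    omega
  have f3 := H.fp4 c (h ^ N)⁻¹ ((h ^ N)⁻¹ * h ^ j) (h ^ N)
  rw [dAB, dYB, dAY, H.d_comm c (h ^ N)⁻¹] at f3
  refine ⟨-((j : ℤ) - N), ?_⟩
  have e : H.l (h ^ (-((j : ℤ) - N)) * c) = H.d c ((h ^ N)⁻¹ * h ^ j) := by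
    rw [H.d_comm]
    unfold d
    congr 2
    rw [mul_inv_rev, inv_inv, neg_sub, zpow_sub, zpow_natCast, zpow_natCast]
    exact (Commute.pow_pow_self h N j).inv_right.eq
  rw [e]
  omega

end line

include H in
/-- the centraliser of a power of an element of infinite order -/
theorem exists_pow_cent (g : G) (hg : ¬ IsOfFinOrder g) : ∃ K : ℕ, 1 ≤ K ∧
    (Subgroup.zpowers (g ^ K)).relIndex (Subgroup.centralizer {g ^ K}) ≠ 0 := by
  obtain ⟨K, hK, x, hx⟩ := H.exists_lox g hg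
  refine ⟨K, hK, ?_⟩
  set h := x⁻¹ * g ^ K * x with hh
  refine relIndex_ne_zero_of_near _ _ {y | H.l (x⁻¹ * y * x) ≤ 2 * H.l h + 6 * H.δ} ?_ ?_
  · refine Set.Finite.preimage (f := fun y => x⁻¹ * y * x) ?_ (H.fin (2 * H.l h + 6 * H.δ))
    intro a _ b _ hab
    simpa using hab
  · intro c hc
    rw [Subgroup.mem_centralizer_iff] at hc
    have hc1 : g ^ K * c = c * g ^ K := hc _ rfl
    obtain ⟨k, hk⟩ := H.cent_near h hx (x⁻¹ * c * x) (by
      rw [hh]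
      calc x⁻¹ * c * x * (x⁻¹ * g ^ K * x) = x⁻¹ * (c * g ^ K) * x := by group
        _ = x⁻¹ * (g ^ K * c) * x := by rw [hc1]
        _ = x⁻¹ * g ^ K * x * (x⁻¹ * c * x) := by group)
    refine ⟨(g ^ K) ^ k, Subgroup.zpow_mem_zpowers _ _, ?_⟩
    have e1 : h ^ k = x⁻¹ * (g ^ K) ^ k * x := by
      rw [hh]
      have := map_zpow (MulAut.conj x⁻¹) (g ^ K) k
      simpa using this.symm
    have e : x⁻¹ * ((g ^ K) ^ k * c) * x = h ^ k * (x⁻¹ * c * x) := by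
      rw [e1]; group
    show H.l (x⁻¹ * ((g ^ K) ^ k * c) * x) ≤ _
    rw [e]
    exact hk

end HL

end H81.Hy
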