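import Mathlib

/-!
# Hyperbolic length functions on groups

`HL G`: an integer valued length function on the group `G` with finite balls, discrete geodesics and Gromov's
four point condition.
-/

set_option autoImplicit false

namespace H81.Hy

/-- a hyperbolic length function -/
structure HL (G : Type*) [Group G] where
  /-- the length -/
  l : G → ℕ
  one : l 1 = 0
  inv : ∀ g, l g⁻¹ = l g
  mul : ∀ g h, l (g * h) ≤ l g + l h
  geo : ∀ g k, k ≤ l g → ∃ h, l h = k ∧ l (h⁻¹ * g) = l g - k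
  /-- growth -/
  b : ℕ
  fin : ∀ R, {g | l g ≤ R}.Finite
  card : ∀ R, Set.ncard {g | l g ≤ R} ≤ b ^ R
  /-- hyperbolicity constant -/
  δ : ℕ
  fp : ∀ a b c e : G, l (a⁻¹ * c) + l (b⁻¹ * e) ≤
    max (l (a⁻¹ * b) + l (c⁻¹ * e)) (l (b⁻¹ * c) + l (a⁻¹ * e)) + 2 * δ

variable {G : Type*} [Group G]

namespace HL

variable (H : HL G)

/-- the distance -/
def d (a b : G) : ℕ := H.l (a⁻¹ * b)

theorem d_one (a : G) : H.d 1 a = H.l a := by
  unfold d; rw [inv_one, one_mul]

theorem d_self (a : G) : H.d a a = 0 := by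
  unfold d; rw [inv_mul_cancel, H.one]

theorem d_comm (a b : G) : H.d a b = H.d b a := by
  unfold d
  rw [← H.inv (a⁻¹ * b)]
  congr 1
  group

theorem d_tri (a b c : G) : H.d a c ≤ H.d a b + H.d b c := by
  unfold d
  have h := H.mul (a⁻¹ * b) (b⁻¹ * c)
  rwa [show a⁻¹ * b * (b⁻¹ * c) = a⁻¹ * c by group] at h

theorem d_left (g a b : G) : H.d (g * a) (g * b) = H.d a b := by
  unfold d
  congr 1
  group

/-- four point condition -/
theorem d_fp (a b c e : G) : H.d a c + H.d b e ≤
    max (H.d a b + H.d c e) (H.d b c + H.d a e) + 2 * H.δ := H.fp a b c e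

theorem l_inv_mul (a b : G) : H.l (a⁻¹ * b) = H.d a b := rfl

end HL

end H81.Hy
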