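import Pool.Agent.H81.Hy.Main

/-!
# The dichotomy with the finite subgroup generated by the images of `σ_1` and `σ_3`
-/

set_option autoImplicit false

namespace H81.Hy

section
variable {n : ℕ} {G : Type*} [Group G] (f : Br n →* G)

theorem dichotomy_noncyclic (H : HL G) (hn : 5 ≤ n) :
    ((∀ i, ¬ IsOfFinOrder (f (sg i))) ∧ VCyc f.range ∧ Finite (commutator f.range)) ∨
      ((∀ i, IsOfFinOrder (f (sg i))) ∧ (∀ m, m ≤ n → IsOfFinOrder (f (fullTwist n m))) ∧
        (∀ m, 2 * m ≤ n → Finite (par f m)) ∧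
        (¬ IsCyclic f.range →
          Finite (Subgroup.closure {f (sg ⟨0, by omega⟩), f (sg ⟨2, by omega⟩)} : Subgroup G) ∧
          ¬ IsCyclic (Subgroup.closure {f (sg ⟨0, by omega⟩), f (sg ⟨2, by omega⟩)} :
            Subgroup G))) := by
  rcases dichotomy f H hn with h | ⟨h1, h2, h3⟩
  · exact Or.inl h
  · refine Or.inr ⟨h1, h2, h3, ?_⟩
    intro hc
    have h0 : IsOfFinOrder (sq f 0) := by
      rw [sq_of f (by omega)]
      exact h1 _
    have h01 : sq f 0 ≠ sq f 1 := fun h => hc (cyclic_of_eq f hn (sg_eq_of f h))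
    have h4 := not_cyclic (sq_BR f) (by omega) h01 h0
    rw [sq_of f (by omega : 0 < n - 1), sq_of f (by omega : 2 < n - 1)] at h4
    exact h4

end

end H81.Hy
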