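import Pool.Agent.H81.Hy.Br

/-!
# Finite groups containing images of commutator subgroups of braid groups
-/

set_option autoImplicit false

open scoped commutatorElement

namespace H81.Hy

variable {G : Type*} [Group G]

/-- words of exponent sum zero are in the commutator subgroup -/
theorem swap_mem {N : ℕ} {s : ℕ → G} (h : BR N s) (m i : ℕ) (hm : m ≤ N + 1) (hi : i + 3 < m) :
    s (i + 1) * s i * s (i + 2) * s (i + 1) * (s 0 * s 0 * s 0 * s 0)⁻¹ ∈ ⁅Pb s m, Pb s m⁆ := by
  set A := Pb s m with hA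
  set S : ℕ → A := fun j => if hj : j + 1 < m then ⟨s j, mem_Pb s hj⟩ else 1 with hS
  have hSj : ∀ j, j + 1 < m → (S j : G) = s j := by
    intro j hj
    rw [hS]
    simp only [hj, dif_pos]
  set t : ℕ → Abelianization A := fun j => Abelianization.of (S j) with ht
  have h1 : ∀ j, j + 2 < m → t j = t (j + 1) := by
    intro j hj
    have e : S j * S (j + 1) * S j = S (j + 1) * S j * S (j + 1) := by
      apply Subtype.ext
      push_cast
      rw [hSj j (by omega), hSj (j + 1) (by omega)]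
      exact h.2 j (by omega)
    have e2 := congrArg Abelianization.of e
    simp only [map_mul] at e2
    exact eq_of_comm_braid (mul_comm _ _) e2
  have h2 : ∀ j, j + 1 < m → t j = t 0 := by
    intro j
    induction j with
    | zero => intro _; rfl
    | succ j ih => intro hj; rw [← h1 j hj]; exact ih (by omega)
  have h3 : Abelianization.of (S (i + 1) * S i * S (i + 2) * S (i + 1) *
      (S 0 * S 0 * S 0 * S 0)⁻¹) = 1 := by
    have e1 : t (i + 1) = t 0 := h2 (i + 1) (by omega)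
    have e2 : t i = t 0 := h2 i (by omega)
    have e3 : t (i + 2) = t 0 := h2 (i + 2) (by omega)
    have e4 : t (i + 1) * t i * t (i + 2) * t (i + 1) * (t 0 * t 0 * t 0 * t 0)⁻¹ = 1 := by
      rw [e1, e2, e3, mul_inv_cancel]
    rw [map_mul, map_inv, map_mul, map_mul, map_mul, map_mul, map_mul, map_mul]
    exact e4
  rw [← MonoidHom.mem_ker, Abelianization.ker_of] at h3
  rw [← Subgroup.map_subtype_commutator]
  refine ⟨_, h3, ?_⟩
  simp only [Subgroup.subtype_apply, Subgroup.coe_mul, Subgroup.coe_inv]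
  rw [hSj i (by omega), hSj (i + 1) (by omega), hSj (i + 2) (by omega), hSj 0 (by omega)]

theorem swap_conj_left {N : ℕ} {s : ℕ → G} (h : BR N s) (i : ℕ) (hi : i + 2 < N) :
    s (i + 1) * s i * s (i + 2) * s (i + 1) * s i =
      s (i + 2) * (s (i + 1) * s i * s (i + 2) * s (i + 1)) := by
  have h1 := h.2 i (by omega)
  have h2 := h.2 (i + 1) (by omega)
  have h3 := h.1 i (i + 2) le_rfl hi
  calc s (i + 1) * s i * s (i + 2) * s (i + 1) * s i
      = s (i + 1) * (s i * s (i + 2)) * s (i + 1) * s i := by group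
    _ = s (i + 1) * s (i + 2) * (s i * s (i + 1) * s i) := by rw [h3]; group
    _ = (s (i + 1) * s (i + 2) * s (i + 1)) * s i * s (i + 1) := by rw [h1]; group
    _ = s (i + 2) * s (i + 1) * (s (i + 2) * s i) * s (i + 1) := by rw [h2]; group
    _ = s (i + 2) * (s (i + 1) * s i * s (i + 2) * s (i + 1)) := by rw [← h3]; group

theorem swap_conj_right {N : ℕ} {s : ℕ → G} (h : BR N s) (i : ℕ) (hi : i + 2 < N) :
    s (i + 1) * s i * s (i + 2) * s (i + 1) * s (i + 2) =
      s i * (s (i + 1) * s i * s (i + 2) * s (i + 1)) := by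
  have h1 := h.2 i (by omega)
  have h2 := h.2 (i + 1) (by omega)
  calc s (i + 1) * s i * s (i + 2) * s (i + 1) * s (i + 2)
      = s (i + 1) * s i * (s (i + 2) * s (i + 1) * s (i + 2)) := by group
    _ = (s (i + 1) * s i * s (i + 1)) * s (i + 2) * s (i + 1) := by rw [← h2]; group
    _ = s i * (s (i + 1) * s i * s (i + 2) * s (i + 1)) := by rw [← h1]; group

/-- permutations of `s 0, s 2, ..., s (2 k - 2)` by conjugation -/
theorem exists_perm {N : ℕ} {s : ℕ → G} (h : BR N s) (m k : ℕ) (hm : m ≤ N + 1) (hk : 2 * k ≤ m)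
    (π : Equiv.Perm (Fin k)) : ∃ g ∈ ⁅Pb s m, Pb s m⁆, ∀ i : Fin k,
      g * s (2 * i) * g⁻¹ = s (2 * (π i : ℕ)) := by
  obtain _ | k := k
  · exact ⟨1, Subgroup.one_mem _, fun i => i.elim0⟩
  set P : Submonoid (Equiv.Perm (Fin (k + 1))) :=
    { carrier := {π | ∃ g ∈ ⁅Pb s m, Pb s m⁆, ∀ i : Fin (k + 1),
        g * s (2 * i) * g⁻¹ = s (2 * (π i : ℕ))}
      one_mem' := ⟨1, Subgroup.one_mem _, fun i => by simp⟩
      mul_mem' := by
        rintro π ρ ⟨g, hg, h1⟩ ⟨g', hg', h2⟩
        refine ⟨g * g', Subgroup.mul_mem _ hg hg', fun i => ?_⟩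
        rw [mul_inv_rev]
        calc g * g' * s (2 * i) * (g'⁻¹ * g⁻¹) = g * (g' * s (2 * i) * g'⁻¹) * g⁻¹ := by group
          _ = s (2 * ((π * ρ) i : ℕ)) := by rw [h2, h1]; rfl } with hP
  suffices hs : P = ⊤ by
    have : π ∈ P := by rw [hs]; exact Submonoid.mem_top _
    exact this
  rw [← top_le_iff, ← Equiv.Perm.mclosure_swap_castSucc_succ, Submonoid.closure_le]
  rintro _ ⟨i, rfl⟩
  have hi := i.2
  refine ⟨_, swap_mem h m (2 * i) hm (by omega), fun j => ?_⟩
  have c0 : ∀ j : Fin (k + 1), s 0 * s (2 * j) = s (2 * j) * s 0 := by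
    intro j
    rcases Nat.eq_zero_or_pos (j : ℕ) with h0 | h0
    · rw [h0]
    · exact h.1 0 (2 * j) (by omega) (by omega)
  set w := s (2 * i + 1) * s (2 * i) * s (2 * i + 2) * s (2 * i + 1) with hw
  have c1 : (s 0 * s 0 * s 0 * s 0)⁻¹ * s (2 * j) = s (2 * j) * (s 0 * s 0 * s 0 * s 0)⁻¹ := by
    have hc : Commute (s 0) (s (2 * j)) := c0 j
    exact (((hc.mul_left hc).mul_left hc).mul_left hc).inv_left
  have c2 : w * (s 0 * s 0 * s 0 * s 0)⁻¹ * s (2 * j) * (w * (s 0 * s 0 * s 0 * s 0)⁻¹)⁻¹ =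
      w * s (2 * j) * w⁻¹ := by
    rw [mul_assoc w, c1]
    group
  rw [c2]
  by_cases h1 : j = i.castSucc
  · subst h1
    rw [Equiv.swap_apply_left]
    have := swap_conj_left h (2 * i) (by omega)
    rw [Fin.val_castSucc, Fin.val_succ, mul_inv_eq_iff_eq_mul, show 2 * ((i : ℕ) + 1) = 2 * i + 2 by ring]
    exact this
  · by_cases h2 : j = i.succ
    · subst h2
      rw [Equiv.swap_apply_right]
      have := swap_conj_right h (2 * i) (by omega)
      rw [Fin.val_castSucc, Fin.val_succ, mul_inv_eq_iff_eq_mul, show 2 * ((i : ℕ) + 1) = 2 * i + 2 by ring]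
      exact this
    · rw [Equiv.swap_apply_of_ne_of_ne h1 h2]
      have h3 : (j : ℕ) ≠ i := fun h0 => h1 (Fin.ext h0)
      have h4 : (j : ℕ) ≠ i + 1 := fun h0 => h2 (Fin.ext h0)
      have hc : ∀ a : ℕ, 2 * (i : ℕ) ≤ a → a ≤ 2 * i + 2 → Commute (s a) (s (2 * j)) := by
        intro a ha1 ha2
        rcases Nat.lt_or_ge (j : ℕ) i with h5 | h5
        · exact (h.1 (2 * j) a (by omega) (by omega)).symm
        · exact h.1 a (2 * j) (by omega) (by omega)
      have hcw : Commute w (s (2 * j)) :=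
        (((hc _ (by omega) (by omega)).mul_left (hc _ (by omega) (by omega))).mul_left
          (hc _ (by omega) (by omega))).mul_left (hc _ (by omega) (by omega))
      rw [hcw.eq, mul_inv_cancel_right]

end H81.Hy
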