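import Pool.Agent.H81.Hy.Cen

/-!
# Commuting subgroups of hyperbolic groups
-/

set_option autoImplicit false

open scoped commutatorElement

namespace H81.Hy

variable {G : Type*} [Group G]

/-- Schur: if the centre has finite index, the commutator subgroup is finite -/
theorem finite_commutator_of_center (h : (Subgroup.center G).index ≠ 0) :
    Finite (commutator G) := by
  have : (Subgroup.center G).FiniteIndex := ⟨h⟩
  have hq : Finite (G ⧸ Subgroup.center G) := Subgroup.finite_quotient_of_finiteIndex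
  have hs : Finite (commutatorSet G) := by
    have hsub : commutatorSet G ⊆ Set.range
        (fun q : (G ⧸ Subgroup.center G) × (G ⧸ Subgroup.center G) => ⁅q.1.out, q.2.out⁆) := by
      rintro _ ⟨a, b, rfl⟩
      refine ⟨(QuotientGroup.mk a, QuotientGroup.mk b), ?_⟩
      have ha : (QuotientGroup.mk a : G ⧸ Subgroup.center G).out⁻¹ * a ∈ Subgroup.center G := by
        rw [← QuotientGroup.eq, QuotientGroup.out_eq']
      have hb : (QuotientGroup.mk b : G ⧸ Subgroup.center G).out⁻¹ * b ∈ Subgroup.center G := by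
        rw [← QuotientGroup.eq, QuotientGroup.out_eq']
      set a' := (QuotientGroup.mk a : G ⧸ Subgroup.center G).out with ha'
      set b' := (QuotientGroup.mk b : G ⧸ Subgroup.center G).out with hb'
      set u := a'⁻¹ * a with hu
      set w := b'⁻¹ * b with hw
      have ea : a = a' * u := by rw [hu, mul_inv_cancel_left]
      have eb : b = b' * w := by rw [hw, mul_inv_cancel_left]
      have cu : ∀ g, g * u = u * g := Subgroup.mem_center_iff.1 ha
      have cw : ∀ g, g * w = w * g := Subgroup.mem_center_iff.1 hb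
      show ⁅a', b'⁆ = ⁅a, b⁆
      rw [ea, eb, commutatorElement_def, commutatorElement_def]
      have e1 : (a' * u)⁻¹ = u⁻¹ * a'⁻¹ := mul_inv_rev _ _
      have e2 : (b' * w)⁻¹ = w⁻¹ * b'⁻¹ := mul_inv_rev _ _
      rw [e1, e2]
      have e3 : a' * u * (b' * w) * (u⁻¹ * a'⁻¹) * (w⁻¹ * b'⁻¹) =
          a' * (u * (b' * w)) * u⁻¹ * (a'⁻¹ * w⁻¹) * b'⁻¹ := by group
      have cw' : ∀ g, g * w⁻¹ = w⁻¹ * g := fun g => by
        rw [eq_inv_mul_iff_mul_eq, ← mul_assoc, ← cw, mul_assoc, mul_inv_cancel, mul_one]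
      rw [e3, ← cu (b' * w), cw' a'⁻¹]
      group
    exact Set.Finite.subset (Set.finite_range _) hsub
  infer_instance

open scoped IsMulCommutative in
/-- a group generated by elements of finite order with centre of finite index is a torsion group
at the centre -/
theorem center_torsion (T : Set G) (hT : ∀ t ∈ T, IsOfFinOrder t) (hc : Subgroup.closure T = ⊤)
    (h : (Subgroup.center G).index ≠ 0) (z : G) (hz : z ∈ Subgroup.center G) :
    IsOfFinOrder z := by
  have : (Subgroup.center G).FiniteIndex := ⟨h⟩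
  set φ := MonoidHom.transferCenterPow G with hφ
  have h1 : ∀ g : G, IsOfFinOrder (φ g) := by
    intro g
    have hg : g ∈ (CommGroup.torsion (Subgroup.center G)).comap φ := by
      have : (⊤ : Subgroup G) ≤ (CommGroup.torsion (Subgroup.center G)).comap φ := by
        rw [← hc, Subgroup.closure_le]
        intro t ht
        exact φ.isOfFinOrder (hT t ht)
      exact this (Subgroup.mem_top g)
    exact hg
  have h2 := h1 z
  have h3 : IsOfFinOrder (z ^ (Subgroup.center G).index) := by
    have h4 := (Subgroup.center G).subtype.isOfFinOrder h2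
    have h5 : (Subgroup.center G).subtype (φ z) = z ^ (Subgroup.center G).index :=
      MonoidHom.transferCenterPow_apply z
    rwa [h5] at h4
  exact (isOfFinOrder_pow.1 h3).resolve_right h

theorem not_fin_zpow {a : G} (ha : ¬ IsOfFinOrder a) {p : ℤ} (hp : p ≠ 0) :
    ¬ IsOfFinOrder (a ^ p) := by
  intro h
  obtain ⟨n, hn, h1⟩ := isOfFinOrder_iff_zpow_eq_one.1 h
  rw [← zpow_mul] at h1
  exact ha (isOfFinOrder_iff_zpow_eq_one.2 ⟨p * n, mul_ne_zero hp hn, h1⟩)

namespace HL

variable (H : HL G)

include H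

theorem comm_pow (g b : G) (hg : ¬ IsOfFinOrder g) (hb : ¬ IsOfFinOrder b) (hc : g * b = b * g) :
    ∃ p q : ℤ, p ≠ 0 ∧ q ≠ 0 ∧ g ^ p = b ^ q := by
  obtain ⟨K, hK, hr⟩ := H.exists_pow_cent g hg
  have hbK : b ∈ Subgroup.centralizer {g ^ K} := by
    rw [Subgroup.mem_centralizer_iff]
    intro y hy
    rw [Set.mem_singleton_iff] at hy
    rw [hy]
    exact (Commute.pow_left hc K)
  obtain ⟨n, hn, -, hmem⟩ := Subgroup.exists_pow_mem_of_relIndex_ne_zero hr hbK
  obtain ⟨z, hz⟩ := Subgroup.mem_zpowers_iff.1 (Subgroup.mem_inf.1 hmem).1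
  have h1 : g ^ ((K : ℤ) * z) = b ^ (n : ℤ) := by
    rw [zpow_mul, zpow_natCast, zpow_natCast, hz]
  refine ⟨(K : ℤ) * z, n, ?_, by omega, h1⟩
  intro h0
  rw [h0, zpow_zero, zpow_natCast] at h1
  exact hb ((isOfFinOrder_iff_pow_eq_one).2 ⟨n, hn, h1.symm⟩)

/-- a subgroup with a central element of infinite order has a centre of finite index and is
virtually cyclic -/
theorem center_index (A : Subgroup G) (z : G) (hz : z ∈ A) (hzi : ¬ IsOfFinOrder z)
    (hc : ∀ a ∈ A, a * z = z * a) : (Subgroup.center A).index ≠ 0 ∧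
      ∃ C : Subgroup A, C.index ≠ 0 ∧ IsCyclic C := by
  obtain ⟨K, hK, hr⟩ := H.exists_pow_cent z hzi
  have hA : A ≤ Subgroup.centralizer {z ^ K} := by
    intro a ha
    rw [Subgroup.mem_centralizer_iff]
    intro y hy
    rw [Set.mem_singleton_iff] at hy
    rw [hy]
    exact (Commute.pow_left (hc a ha).symm K)
  have h1 : (Subgroup.zpowers (z ^ K)).relIndex A ≠ 0 := fun h0 =>
    hr (Subgroup.relIndex_eq_zero_of_le_right hA h0)
  have h3 : ((Subgroup.zpowers (z ^ K)).subgroupOf A).index ≠ 0 := h1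
  have h4 : (Subgroup.zpowers (z ^ K)).subgroupOf A = Subgroup.zpowers (⟨z, hz⟩ ^ K : A) := by
    ext a
    rw [Subgroup.mem_subgroupOf, Subgroup.mem_zpowers_iff, Subgroup.mem_zpowers_iff]
    constructor
    · rintro ⟨k, hk⟩
      exact ⟨k, Subtype.ext (by push_cast; exact hk)⟩
    · rintro ⟨k, hk⟩
      refine ⟨k, ?_⟩
      have := congrArg (Subtype.val : A → G) hk
      push_cast at this
      exact this
  constructor
  · have h5 : (Subgroup.zpowers (z ^ K)).subgroupOf A ≤ Subgroup.center A := by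
      rw [h4, Subgroup.zpowers_le]
      refine Subgroup.pow_mem _ ?_ K
      rw [Subgroup.mem_center_iff]
      intro a
      exact Subtype.ext (hc a a.2)
    intro h0
    have h6 := Subgroup.index_dvd_of_le h5
    rw [h0] at h6
    exact h3 (Nat.eq_zero_of_zero_dvd h6)
  · refine ⟨_, h3, ?_⟩
    rw [h4]
    infer_instance

/-- a subgroup generated by elements of finite order has no central element of infinite order -/
theorem no_inf_center (A : Subgroup G) (T : Set G) (hT : ∀ t ∈ T, IsOfFinOrder t)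
    (hA : A = Subgroup.closure T) (z : G) (hz : z ∈ A) (hzi : ¬ IsOfFinOrder z)
    (hc : ∀ a ∈ A, a * z = z * a) : False := by
  have h1 := (H.center_index A z hz hzi hc).1
  have hTA : T ⊆ A := by rw [hA]; exact Subgroup.subset_closure
  have h2 : Subgroup.closure ((↑) ⁻¹' T : Set A) = ⊤ := by
    rw [← Subgroup.map_injective A.subtype_injective |>.eq_iff, MonoidHom.map_closure,
      ← MonoidHom.range_eq_map, A.range_subtype, hA]
    congr 1
    ext t
    constructor
    · rintro ⟨a, ha, rfl⟩
      exact ha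
    · intro ht
      exact ⟨⟨t, by rw [← hA]; exact hTA ht⟩, ht, rfl⟩
  have h3 : IsOfFinOrder (⟨z, hz⟩ : A) := by
    refine center_torsion _ ?_ h2 h1 _ ?_
    · intro t ht
      have : IsOfFinOrder (t : G) := hT _ ht
      rwa [← Submonoid.isOfFinOrder_coe (H := A.toSubmonoid)] 
    · rw [Subgroup.mem_center_iff]
      intro a
      exact Subtype.ext (hc a a.2)
  exact hzi (A.subtype.isOfFinOrder h3)

/-- commuting subgroups, one of them generated by elements of finite order -/
theorem comm_finite (A B : Subgroup G) (T : Set G) (hT : ∀ t ∈ T, IsOfFinOrder t)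
    (hA : A = Subgroup.closure T) (hc : ∀ a ∈ A, ∀ b ∈ B, a * b = b * a) :
    (A : Set G).Finite ∨ (B : Set G).Finite := by
  by_contra hcon
  push Not at hcon
  obtain ⟨hAi, hBi⟩ := hcon
  have h1 : ∃ a ∈ A, ¬ IsOfFinOrder a := by
    by_contra h
    push Not at h
    exact hAi (H.finite_of_torsion A h)
  have h2 : ∃ b ∈ B, ¬ IsOfFinOrder b := by
    by_contra h
    push Not at h
    exact hBi (H.finite_of_torsion B h)
  obtain ⟨a, ha, hai⟩ := h1
  obtain ⟨b, hb, hbi⟩ := h2
  obtain ⟨p, q, hp, hq, hpq⟩ := H.comm_pow a b hai hbi (hc a ha b hb)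
  refine H.no_inf_center A T hT hA (a ^ p) (A.zpow_mem ha p) ?_ ?_
  · exact not_fin_zpow hai hp
  · intro c hcA
    rw [hpq]
    exact (Commute.zpow_right (hc c hcA b hb) q)

end HL

end H81.Hy
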