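import Mathlib

/-!
# A numerical inequality
-/

set_option autoImplicit false

namespace H81.Hy

theorem pow_ratio (k : ℕ) : (8 * k + 13) ^ (k - 1) ≤ 3 * (8 * k + 5) ^ (k - 1) := by
  have h0 : (0 : ℝ) < 8 * k + 5 := by positivity
  have h1 : (8 * (k : ℝ) + 13) ^ (k - 1) ≤ 3 * (8 * k + 5) ^ (k - 1) := by
    have h2 : (8 * (k : ℝ) + 13) = (8 * k + 5) * (8 / (8 * k + 5) + 1) := by
      field_simp
      ring
    rw [h2, mul_pow, mul_comm]
    refine mul_le_mul_of_nonneg_right ?_ (by positivity)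
    have h3 : (8 / (8 * (k : ℝ) + 5) + 1) ≤ Real.exp (8 / (8 * (k : ℝ) + 5)) :=
      Real.add_one_le_exp _
    have h4 : (8 / (8 * (k : ℝ) + 5) + 1) ^ (k - 1) ≤ Real.exp (8 / (8 * (k : ℝ) + 5)) ^ (k - 1) :=
      pow_le_pow_left₀ (by positivity) h3 _
    refine h4.trans ?_
    rw [← Real.exp_nat_mul]
    have h5 : ((k - 1 : ℕ) : ℝ) * (8 / (8 * (k : ℝ) + 5)) ≤ 1 := by
      rw [← mul_div_assoc, div_le_one h0]
      have : ((k - 1 : ℕ) : ℝ) ≤ k := by exact_mod_cast Nat.sub_le _ _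
      nlinarith
    have h6 := Real.exp_le_exp.2 h5
    have h7 := Real.exp_one_lt_d9
    linarith
  exact_mod_cast h1

theorem fac_pow (k : ℕ) (hk : 3 ≤ k) : (8 * k + 5) ^ (k - 1) < (Nat.factorial k) ^ 4 := by
  induction k, hk using Nat.le_induction with
  | base => decide
  | succ k hk ih =>
    have h1 := pow_ratio k
    have h2 : 8 * (k + 1) + 5 = 8 * k + 13 := by ring
    rw [h2, Nat.add_sub_cancel, Nat.factorial_succ, mul_pow]
    have h3 : (8 * k + 13) ^ k = (8 * k + 13) * (8 * k + 13) ^ (k - 1) := by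
      rw [← pow_succ', Nat.sub_add_cancel (by omega)]
    rw [h3]
    have h4 : 3 * (8 * k + 13) ≤ (k + 1) ^ 4 := by
      obtain ⟨j, rfl⟩ : ∃ j, k = j + 3 := ⟨k - 3, by omega⟩
      ring_nf
      nlinarith [sq_nonneg j, Nat.zero_le (j ^ 3), Nat.zero_le (j ^ 4)]
    calc (8 * k + 13) * (8 * k + 13) ^ (k - 1)
        ≤ (8 * k + 13) * (3 * (8 * k + 5) ^ (k - 1)) := Nat.mul_le_mul_left _ h1
      _ = (3 * (8 * k + 13)) * (8 * k + 5) ^ (k - 1) := by ring
      _ < (3 * (8 * k + 13)) * (Nat.factorial k) ^ 4 :=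
          Nat.mul_lt_mul_of_pos_left ih (by positivity)
      _ ≤ (k + 1) ^ 4 * (Nat.factorial k) ^ 4 := Nat.mul_le_mul_right _ h4

/-- the linear bound -/
theorem le_of_fac (k a : ℕ) (ha : 1 ≤ a) (h : (Nat.factorial k) ^ 2 ≤ (8 * k + 5) ^ a) :
    k ≤ 2 * a := by
  by_contra hc
  push Not at hc
  have h1 := fac_pow k (by omega)
  have h2 : (8 * k + 5) ^ (2 * a) ≤ (8 * k + 5) ^ (k - 1) :=
    Nat.pow_le_pow_right (by omega) (by omega)
  have h3 : ((Nat.factorial k) ^ 2) ^ 2 ≤ ((8 * k + 5) ^ a) ^ 2 := Nat.pow_le_pow_left h 2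
  rw [← pow_mul, ← pow_mul, mul_comm a 2] at h3
  have h4 : (Nat.factorial k) ^ (2 * 2) = (Nat.factorial k) ^ 4 := by norm_num
  rw [h4] at h3
  omega

end H81.Hy
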