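import Pool.Agent.H81.Hy.Bound

/-!
# Full twists
-/

set_option autoImplicit false

namespace H81.Hy

variable {G : Type*} [Group G]

/-- the product `s 1 * ... * s k` -/
def E (s : ℕ → G) : ℕ → G
  | 0 => 1
  | k + 1 => E s k * s (k + 1)

theorem D_eq (s : ℕ → G) (k : ℕ) : D s (k + 1) = s 0 * E s k := by
  induction k with
  | zero => simp [D, E]
  | succ k ih =>
    show D s (k + 1) * s (k + 1) = s 0 * (E s k * s (k + 1))
    rw [ih, mul_assoc]

/-- moving the Coxeter element to the right -/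
theorem D_mul_D {N : ℕ} {s : ℕ → G} (h : BR N s) (k j : ℕ) (hk : k ≤ N) (hj : j + 1 ≤ k) :
    D s k * D s j = E s j * D s k := by
  induction j with
  | zero => simp [D, E]
  | succ j ih =>
    show D s k * (D s j * s j) = E s j * s (j + 1) * D s k
    rw [← mul_assoc, ih (by omega), mul_assoc, D_shift h k j (by omega) hk, mul_assoc]

theorem D_sq {N : ℕ} {s : ℕ → G} (h : BR N s) (k : ℕ) (hk : k + 1 ≤ N) :
    s 0 * (D s (k + 1) * D s (k + 1)) = D s (k + 1) * D s (k + 1) * s k := by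
  have h1 : D s (k + 1) * D s (k + 1) = E s k * D s (k + 1) * s k := by
    conv_lhs => rw [show D s (k + 1) = D s k * s k from rfl]
    have h2 := D_mul_D h (k + 1) k hk le_rfl
    rw [← mul_assoc]
    rw [show D s k * s k * D s k = D s (k + 1) * D s k from rfl, h2]
  calc s 0 * (D s (k + 1) * D s (k + 1)) = s 0 * (E s k * D s (k + 1) * s k) := by rw [h1]
    _ = (s 0 * E s k) * D s (k + 1) * s k := by group
    _ = D s (k + 1) * D s (k + 1) * s k := by rw [← D_eq]

/-- the full twist commutes with the generators -/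
theorem twist_comm {N : ℕ} {s : ℕ → G} (h : BR N s) (k i : ℕ) (hk : k ≤ N) (hi : i < k) :
    Commute (D s k ^ (k + 1)) (s i) := by
  obtain ⟨k, rfl⟩ : ∃ k', k = k' + 1 := ⟨k - 1, by omega⟩
  have hB : BR (k + 1) s := by
    constructor
    · intro i j hij hj
      exact h.1 i j hij (by omega)
    · intro i hi
      exact h.2 i (by omega)
  set d := D s (k + 1) with hd
  have h1 : ∀ j, j < k + 1 → d ^ j * s 0 * (d ^ j)⁻¹ = s j := by
    intro j hj
    have := conj_shift_pow hB 0 j (by omega)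
    rwa [zero_add] at this
  have h2 : d ^ 2 * s k * (d ^ 2)⁻¹ = s 0 := by
    rw [mul_inv_eq_iff_eq_mul, pow_two]
    exact (D_sq h k hk).symm
  have h3 : d ^ (k + 1 + 1) * s 0 * (d ^ (k + 1 + 1))⁻¹ = s 0 := by
    have e : d ^ (k + 1 + 1) = d ^ 2 * d ^ k := by rw [← pow_add]; congr 1; ring
    rw [e, mul_inv_rev]
    calc d ^ 2 * d ^ k * s 0 * ((d ^ k)⁻¹ * (d ^ 2)⁻¹) =
        d ^ 2 * (d ^ k * s 0 * (d ^ k)⁻¹) * (d ^ 2)⁻¹ := by group
      _ = s 0 := by rw [h1 k (by omega), h2]
  have h4 : Commute (d ^ (k + 1 + 1)) (s 0) := by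
    rw [mul_inv_eq_iff_eq_mul] at h3
    exact h3
  have h5 : Commute (d ^ (k + 1 + 1)) (d ^ i * s 0 * (d ^ i)⁻¹) := by
    have h6 : Commute (d ^ (k + 1 + 1)) (d ^ i) := Commute.pow_pow_self d _ _
    exact (h6.mul_right h4).mul_right h6.inv_right
  rwa [h1 i hi] at h5

theorem D_mem (s : ℕ → G) (m k : ℕ) (hk : k + 1 ≤ m) : D s k ∈ Pb s m := by
  induction k with
  | zero => exact Subgroup.one_mem _
  | succ k ih => exact Subgroup.mul_mem _ (ih (by omega)) (mem_Pb s (by omega))

/-- full twists have finite order in the torsion case -/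
theorem HL.twist_fin (H : HL G) {N : ℕ} {s : ℕ → G} (h : BR N s) (h0 : IsOfFinOrder (s 0))
    (k : ℕ) (hk : k ≤ N) : IsOfFinOrder (D s k ^ (k + 1)) := by
  by_contra hc
  refine H.no_inf_center (Pb s (k + 1)) {g | ∃ i, i + 1 < k + 1 ∧ g = s i} ?_ rfl _
    (Subgroup.pow_mem _ (D_mem s (k + 1) k le_rfl) _) hc ?_
  · rintro t ⟨i, hi, rfl⟩
    rw [fin_shift h i (by omega)]
    exact h0
  · have h1 : Pb s (k + 1) ≤ Subgroup.centralizer {D s k ^ (k + 1)} := by
      unfold Pb
      rw [Subgroup.closure_le]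
      rintro g ⟨i, hi, rfl⟩
      show s i ∈ Subgroup.centralizer _
      rw [Subgroup.mem_centralizer_iff]
      intro y hy
      rw [Set.mem_singleton_iff] at hy
      rw [hy]
      exact twist_comm h k i hk (by omega)
    intro a ha
    exact ((Subgroup.mem_centralizer_iff.1 (h1 ha)) _ rfl).symm

end H81.Hy
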