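import Pool.Agent.H81.Hy.Defs

/-!
# Word metrics
-/

set_option autoImplicit false

namespace H81.Hy

variable {G : Type*} [Group G] {r : ℕ}

/-- word length of `g` with respect to the family `x` (`0` if `g` is not in the subgroup generated
by `x`) -/
noncomputable def wl (x : Fin r → G) (g : G) : ℕ :=
  sInf {k : ℕ | ∃ u : FreeGroup (Fin r), u.toWord.length = k ∧ FreeGroup.lift x u = g}

/-- Gromov's four point condition for the word metric `(a, b) ↦ wl x (a⁻¹ * b)` -/
def FourPt (x : Fin r → G) (δ : ℕ) : Prop :=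
  ∀ a b c e : G, ((wl x (a⁻¹ * e) : ℤ) + (wl x (c⁻¹ * e) : ℤ) - (wl x (a⁻¹ * c) : ℤ)) ≥
    min ((wl x (a⁻¹ * e) : ℤ) + (wl x (b⁻¹ * e) : ℤ) - (wl x (a⁻¹ * b) : ℤ))
      ((wl x (b⁻¹ * e) : ℤ) + (wl x (c⁻¹ * e) : ℤ) - (wl x (b⁻¹ * c) : ℤ)) - 2 * (δ : ℤ)

section
variable (x : Fin r → G) (hx : Subgroup.closure (Set.range x) = ⊤)

include hx in
theorem lift_surj : Function.Surjective (FreeGroup.lift x) := by
  rw [← MonoidHom.range_eq_top, FreeGroup.range_lift_eq_closure, hx]

include hx in
theorem exists_word (g : G) : ∃ u : FreeGroup (Fin r), u.toWord.length = wl x g ∧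
    FreeGroup.lift x u = g := by
  obtain ⟨u, hu⟩ := lift_surj x hx g
  have hne : {k : ℕ | ∃ u : FreeGroup (Fin r), u.toWord.length = k ∧
      FreeGroup.lift x u = g}.Nonempty := ⟨_, u, rfl, hu⟩
  exact Nat.sInf_mem hne

theorem wl_le (u : FreeGroup (Fin r)) : wl x (FreeGroup.lift x u) ≤ u.norm :=
  Nat.sInf_le ⟨u, rfl, rfl⟩

theorem wl_one : wl x (1 : G) = 0 := by
  have := wl_le x (1 : FreeGroup (Fin r))
  rw [map_one, FreeGroup.norm_one] at this
  omega

include hx in
theorem wl_inv_le (g : G) : wl x g⁻¹ ≤ wl x g := by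
  obtain ⟨u, hu, hg⟩ := exists_word x hx g
  have := wl_le x u⁻¹
  rw [map_inv, hg, FreeGroup.norm_inv_eq] at this
  exact this.trans (le_of_eq hu)

include hx in
theorem wl_inv (g : G) : wl x g⁻¹ = wl x g := by
  refine le_antisymm (wl_inv_le x hx g) ?_
  have := wl_inv_le x hx g⁻¹
  rwa [inv_inv] at this

include hx in
theorem wl_mul (g h : G) : wl x (g * h) ≤ wl x g + wl x h := by
  obtain ⟨u, hu, hg⟩ := exists_word x hx g
  obtain ⟨v, hv, hh⟩ := exists_word x hx h
  have h1 := wl_le x (u * v)
  rw [map_mul, hg, hh] at h1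
  refine h1.trans ((FreeGroup.norm_mul_le u v).trans (le_of_eq ?_))
  unfold FreeGroup.norm
  rw [hu, hv]

include hx in
theorem wl_geo (g : G) (k : ℕ) (hk : k ≤ wl x g) :
    ∃ h, wl x h = k ∧ wl x (h⁻¹ * g) = wl x g - k := by
  obtain ⟨u, hu, hg⟩ := exists_word x hx g
  set L := u.toWord with hL
  have hLu : FreeGroup.mk L = u := FreeGroup.mk_toWord
  set p := FreeGroup.mk (L.take k) with hp
  set q := FreeGroup.mk (L.drop k) with hq
  have hpq : p * q = u := by
    rw [hp, hq, FreeGroup.mul_mk, List.take_append_drop, hLu]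
  have h1 : wl x (FreeGroup.lift x p) ≤ k :=
    (wl_le x p).trans (FreeGroup.norm_mk_le.trans (List.length_take_le _ _))
  have h2 : wl x (FreeGroup.lift x q) ≤ wl x g - k := by
    refine (wl_le x q).trans (FreeGroup.norm_mk_le.trans ?_)
    rw [List.length_drop, hu]
  have h3 : (FreeGroup.lift x p)⁻¹ * g = FreeGroup.lift x q := by
    rw [← hg, ← hpq, map_mul, inv_mul_cancel_left]
  have h4 := wl_mul x hx (FreeGroup.lift x p) (FreeGroup.lift x q)
  rw [← map_mul, hpq, hg] at h4
  refine ⟨FreeGroup.lift x p, by omega, ?_⟩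
  rw [h3]
  omega

theorem ofFn_cast {α β : Type*} (f : α → β) (L : List α) (R : ℕ) (h : L.length = R) :
    (List.ofFn fun i : Fin R => f (L.get (i.cast h.symm))) = L.map f := by
  subst h
  apply List.ext_get
  · simp
  · intro n h1 h2
    simp

/-- value of a letter -/
def lv : Option (Fin r × Bool) → G
  | none => 1
  | some (i, b) => if b then x i else (x i)⁻¹

include hx in
theorem ball_sub (R : ℕ) : {g : G | wl x g ≤ R} ⊆
    Set.range (fun w : Fin R → Option (Fin r × Bool) => (List.ofFn fun i => lv x (w i)).prod) := by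
  intro g hg
  obtain ⟨u, hu, hug⟩ := exists_word x hx g
  set L := u.toWord with hL
  have hlen : L.length ≤ R := by rw [hu]; exact hg
  set L' : List (Option (Fin r × Bool)) := L.map some ++ List.replicate (R - L.length) none with hL'
  have hlen' : L'.length = R := by
    rw [hL', List.length_append, List.length_map, List.length_replicate]
    omega
  refine ⟨fun i => L'.get (i.cast hlen'.symm), ?_⟩
  have h1 := ofFn_cast (lv x) L' R hlen'
  show (List.ofFn fun i : Fin R => lv x (L'.get (i.cast hlen'.symm))).prod = g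
  rw [h1, hL', List.map_append, List.prod_append, List.map_replicate, List.prod_replicate]
  have h2 : lv x (none : Option (Fin r × Bool)) = 1 := rfl
  rw [h2, one_pow, mul_one, List.map_map, ← hug]
  have h3 : FreeGroup.mk L = u := FreeGroup.mk_toWord
  rw [← h3, FreeGroup.lift_mk]
  congr 1
  apply List.map_congr_left
  rintro ⟨i, b⟩ _
  cases b <;> rfl

include hx in
theorem ball_fin (R : ℕ) : {g : G | wl x g ≤ R}.Finite :=
  Set.Finite.subset (Set.finite_range _) (ball_sub x hx R)

include hx in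
theorem ball_card (R : ℕ) : Set.ncard {g : G | wl x g ≤ R} ≤ (2 * r + 1) ^ R := by
  refine (Set.ncard_le_ncard (ball_sub x hx R) (Set.finite_range _)).trans ?_
  rw [← Set.image_univ]
  refine (Set.ncard_image_le (Set.toFinite _)).trans ?_
  rw [Set.ncard_univ, Nat.card_eq_fintype_card]
  simp only [Fintype.card_fun, Fintype.card_option, Fintype.card_prod, Fintype.card_fin,
    Fintype.card_bool]
  rw [mul_comm r 2]

/-- the hyperbolic length function of a word metric -/
noncomputable def toHL (δ : ℕ) (hδ : FourPt x δ) : HL G where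
  l := wl x
  one := wl_one x
  inv := wl_inv x hx
  mul := wl_mul x hx
  geo := wl_geo x hx
  b := 2 * r + 1
  fin := ball_fin x hx
  card := ball_card x hx
  δ := δ
  fp a b c e := by
    have h := hδ a b c e
    have h1 : wl x (c⁻¹ * b) = wl x (b⁻¹ * c) := by
      rw [← wl_inv x hx (c⁻¹ * b)]
      congr 1
      group
    omega

end

end H81.Hy
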