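import Pool.Agent.H81.Hy.Solv
import Pool.Agent.H81.Hy.Twist
import Pool.Agent.H81.Hy.Num
import Pool.Agent.H81.Hy.Wl

/-!
# Homomorphisms from braid groups to hyperbolic groups
-/

set_option autoImplicit false

open scoped commutatorElement

namespace H81.Hy

/-- the Artin relations of the braid group on `n` strands -/
def brRel (n : ℕ) : Set (FreeGroup (Fin (n - 1))) :=
  {r | ∃ i j : Fin (n - 1),
    ((i : ℕ) + 2 ≤ (j : ℕ) ∧
      r = FreeGroup.of i * FreeGroup.of j * (FreeGroup.of j * FreeGroup.of i)⁻¹) ∨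
    ((i : ℕ) + 1 = (j : ℕ) ∧
      r = FreeGroup.of i * FreeGroup.of j * FreeGroup.of i *
        (FreeGroup.of j * FreeGroup.of i * FreeGroup.of j)⁻¹)}

/-- the braid group on `n` strands -/
abbrev Br (n : ℕ) : Type := PresentedGroup (brRel n)

/-- the Artin generator `σ_(i + 1)` -/
def sg {n : ℕ} (i : Fin (n - 1)) : Br n := PresentedGroup.of i

/-- the Artin generators as a sequence (`1` from `n - 1` on) -/
def gen (n : ℕ) (i : ℕ) : Br n := if h : i < n - 1 then sg ⟨i, h⟩ else 1

/-- the full twist `(σ_1 ... σ_(m - 1)) ^ m` on the first `m` strands -/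
def fullTwist (n m : ℕ) : Br n := D (gen n) (m - 1) ^ m

/-- the image of the subgroup `B_m` generated by `σ_1, ..., σ_(m - 1)` -/
def par {n : ℕ} {G : Type*} [Group G] (f : Br n →* G) (m : ℕ) : Subgroup G :=
  Subgroup.closure {g | ∃ i : Fin (n - 1), (i : ℕ) + 1 < m ∧ g = f (sg i)}

/-- virtually cyclic groups -/
def VCyc (G : Type*) [Group G] : Prop := ∃ C : Subgroup G, C.index ≠ 0 ∧ IsCyclic C

section
variable {n : ℕ} {G : Type*} [Group G] (f : Br n →* G)

/-- the images of the generators as a sequence -/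
def sq (i : ℕ) : G := if h : i < n - 1 then f (sg ⟨i, h⟩) else 1

theorem sq_of {i : ℕ} (h : i < n - 1) : sq f i = f (sg ⟨i, h⟩) := dif_pos h

theorem sq_fin (i : Fin (n - 1)) : sq f i = f (sg i) := dif_pos i.2

theorem map_gen (i : ℕ) : f (gen n i) = sq f i := by
  unfold gen sq
  split_ifs
  · rfl
  · exact map_one f

theorem map_D (k : ℕ) : f (D (gen n) k) = D (sq f) k := by
  induction k with
  | zero => exact map_one f
  | succ k ih =>
    show f (D (gen n) k * gen n k) = D (sq f) k * sq f k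
    rw [map_mul, ih, map_gen]

theorem sq_BR : BR (n - 1) (sq f) := by
  constructor
  · intro i j hij hj
    rw [sq_of f hj, sq_of f (by omega : i < n - 1), ← map_mul, ← map_mul]
    congr 1
    have h1 : (FreeGroup.of (⟨i, by omega⟩ : Fin (n - 1)) * FreeGroup.of ⟨j, hj⟩ *
        (FreeGroup.of ⟨j, hj⟩ * FreeGroup.of ⟨i, by omega⟩)⁻¹) ∈ brRel n :=
      ⟨⟨i, by omega⟩, ⟨j, hj⟩, Or.inl ⟨hij, rfl⟩⟩
    have h2 : PresentedGroup.mk (brRel n) _ = 1 := PresentedGroup.one_of_mem h1
    rw [map_mul, map_inv, mul_inv_eq_one] at h2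
    exact h2
  · intro i hi
    rw [sq_of f hi, sq_of f (by omega : i < n - 1), ← map_mul, ← map_mul, ← map_mul, ← map_mul]
    congr 1
    have h1 : (FreeGroup.of (⟨i, by omega⟩ : Fin (n - 1)) * FreeGroup.of ⟨i + 1, hi⟩ *
        FreeGroup.of ⟨i, by omega⟩ *
        (FreeGroup.of ⟨i + 1, hi⟩ * FreeGroup.of ⟨i, by omega⟩ * FreeGroup.of ⟨i + 1, hi⟩)⁻¹) ∈
          brRel n :=
      ⟨⟨i, by omega⟩, ⟨i + 1, hi⟩, Or.inr ⟨rfl, rfl⟩⟩
    have h2 : PresentedGroup.mk (brRel n) _ = 1 := PresentedGroup.one_of_mem h1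
    rw [map_mul, map_inv, mul_inv_eq_one] at h2
    exact h2

theorem par_eq (m : ℕ) (hm : m ≤ n) : par f m = Pb (sq f) m := by
  unfold par Pb
  congr 1
  ext g
  constructor
  · rintro ⟨i, hi, rfl⟩
    exact ⟨i, hi, (sq_fin f i).symm⟩
  · rintro ⟨i, hi, rfl⟩
    exact ⟨⟨i, by omega⟩, hi, sq_of f (by omega)⟩

theorem range_eq : f.range = Pb (sq f) (n - 1 + 1) := by
  rw [MonoidHom.range_eq_map, ← PresentedGroup.closure_range_of, MonoidHom.map_closure]
  unfold Pb
  congr 1
  ext g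
  constructor
  · rintro ⟨_, ⟨i, rfl⟩, rfl⟩
    exact ⟨i, by omega, (sq_fin f i).symm⟩
  · rintro ⟨i, hi, rfl⟩
    exact ⟨_, ⟨⟨i, by omega⟩, rfl⟩, (sq_of f (by omega)).symm⟩

theorem closure_top (hf : Function.Surjective f) :
    Subgroup.closure (Set.range fun i : Fin (n - 1) => f (sg i)) = ⊤ := by
  have h1 := congrArg (Subgroup.map f) (PresentedGroup.closure_range_of (brRel n))
  rw [MonoidHom.map_closure, ← MonoidHom.range_eq_map, MonoidHom.range_eq_top.2 hf] at h1
  rw [← h1]
  congr 1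
  ext g
  constructor
  · rintro ⟨i, rfl⟩
    exact ⟨_, ⟨i, rfl⟩, rfl⟩
  · rintro ⟨_, ⟨i, rfl⟩, rfl⟩
    exact ⟨i, rfl⟩

theorem sg_eq_of (h : sq f 0 = sq f 1) (i j : Fin (n - 1)) :
    f (sg i) = f (sg j) := by
  rw [← sq_fin f i, ← sq_fin f j, all_eq (sq_BR f) h i i.2, all_eq (sq_BR f) h j j.2]

/-- a dichotomy for homomorphisms from braid groups to hyperbolic groups -/
theorem dichotomy (H : HL G) (hn : 5 ≤ n) :
    ((∀ i, ¬ IsOfFinOrder (f (sg i))) ∧ VCyc f.range ∧ Finite (commutator f.range)) ∨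
      ((∀ i, IsOfFinOrder (f (sg i))) ∧ (∀ m, m ≤ n → IsOfFinOrder (f (fullTwist n m))) ∧
        ∀ m, 2 * m ≤ n → Finite (par f m)) := by
  by_cases h0 : IsOfFinOrder (sq f 0)
  · right
    refine ⟨?_, ?_, ?_⟩
    · intro i
      rw [← sq_fin f i, fin_shift (sq_BR f) i i.2]
      exact h0
    · intro m hm
      unfold fullTwist
      rw [map_pow, map_D]
      rcases Nat.eq_zero_or_pos m with hm0 | hm0
      · rw [hm0, pow_zero]
        exact IsOfFinOrder.one
      · have := H.twist_fin (sq_BR f) h0 (m - 1) (by omega)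
        rwa [show m - 1 + 1 = m by omega] at this
    · intro m hm
      rw [par_eq f m (by omega)]
      exact H.tors_case (sq_BR f) h0 m (by omega)
  · left
    refine ⟨?_, ?_⟩
    · intro i
      rw [← sq_fin f i, fin_shift (sq_BR f) i i.2]
      exact h0
    · obtain ⟨z, hz, hzi, hc⟩ := H.inf_case (sq_BR f) (by omega) h0
      obtain ⟨h1, h2⟩ := H.center_index _ z hz hzi hc
      rw [range_eq f]
      exact ⟨h2, finite_commutator_of_center h1⟩

/-- large finite subgroups -/
theorem eq_of_small (H : HL G) (hn : 5 ≤ n)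
    (h : H.b ^ (4 * H.δ + 1) < (Nat.factorial (n / 4)) ^ 2) (i j : Fin (n - 1)) :
    f (sg i) = f (sg j) := by
  refine sg_eq_of f ?_ i j
  by_contra hne
  have := H.fact_sq_le (sq_BR f) (by omega) hne (n / 4) (by omega)
  omega

/-- finite solvable subgroups -/
theorem eq_of_solv (H : HL G) (hn : 10 ≤ n)
    (h : ∀ F : Subgroup G, Finite F → Group.IsSolvable F) (i j : Fin (n - 1)) :
    f (sg i) = f (sg j) := by
  refine sg_eq_of f ?_ i j
  have hBR : BR 4 (sq f) := by
    constructor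
    · intro i j hij hj
      exact (sq_BR f).1 i j hij (by omega)
    · intro i hi
      exact (sq_BR f).2 i (by omega)
  refine eq_of_solvable hBR ?_
  have h1 : ((⁅Pb (sq f) 5, Pb (sq f) 5⁆ : Subgroup G) : Set G).Finite := by
    have h2 := H.fin_sub (sq_BR f) (by omega) 5 (by omega)
    exact Set.Finite.subset h2 fun x hx => Subgroup.mem_sup_left hx
  have h3 : Group.IsSolvable (⁅Pb (sq f) 5, Pb (sq f) 5⁆ : Subgroup G) := h _ h1
  have h4 : Group.IsSolvable (commutator (Pb (sq f) 5)) := by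
    have h5 := Subgroup.map_subtype_commutator (Pb (sq f) 5)
    rw [← h5] at h3
    have h6 : Function.Injective
        ((Pb (sq f) 5).subtype.subgroupMap (commutator (Pb (sq f) 5))) := by
      intro a b hab
      have h7 := congrArg (fun y : (commutator (Pb (sq f) 5)).map (Pb (sq f) 5).subtype =>
        (y : G)) hab
      exact Subtype.ext (Subtype.ext h7)
    exact Group.isSolvable_of_isSolvable_injective h6
  have h8 : Group.IsSolvable (Pb (sq f) 5 ⧸ commutator (Pb (sq f) 5)) :=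
    (inferInstance : Group.IsSolvable (Abelianization (Pb (sq f) 5)))
  exact (Group.isSolvable_iff_subgroup_quotient (commutator (Pb (sq f) 5))).2 ⟨h4, h8⟩

/-- if all generators have the same image, the image is cyclic -/
theorem cyclic_of_eq (hn : 5 ≤ n) (h : ∀ i j : Fin (n - 1), f (sg i) = f (sg j)) :
    IsCyclic f.range := by
  have h1 : f.range = Subgroup.zpowers (f (sg ⟨0, by omega⟩)) := by
    rw [MonoidHom.range_eq_map, ← PresentedGroup.closure_range_of, MonoidHom.map_closure,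
      Subgroup.zpowers_eq_closure]
    congr 1
    ext g
    rw [Set.mem_singleton_iff]
    constructor
    · rintro ⟨_, ⟨i, rfl⟩, rfl⟩
      exact h i _
    · rintro rfl
      exact ⟨_, ⟨⟨0, by omega⟩, rfl⟩, rfl⟩
  rw [h1]
  infer_instance

/-- the bound for `n` -/
theorem delta_bound {r : ℕ} (x : Fin r → G) (hx : Subgroup.closure (Set.range x) = ⊤) (δ : ℕ)
    (hδ : FourPt x δ) (hn : 5 ≤ n) (hf : ¬ IsCyclic f.range) :
    (Nat.factorial (n / 4)) ^ 2 ≤ (2 * r + 1) ^ (4 * δ + 1) := by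
  by_contra hc
  push Not at hc
  exact hf (cyclic_of_eq f hn (eq_of_small f (toHL x hx δ hδ) hn hc))

theorem delta_linear {r : ℕ} (x : Fin r → G) (hx : Subgroup.closure (Set.range x) = ⊤) (δ : ℕ)
    (hδ : FourPt x δ) (hn : 5 ≤ n) (hf : ¬ IsCyclic f.range) (hr : r ≤ n - 1) :
    n ≤ 32 * δ + 11 := by
  have h1 := delta_bound f x hx δ hδ hn hf
  have h2 : (2 * r + 1) ^ (4 * δ + 1) ≤ (8 * (n / 4) + 5) ^ (4 * δ + 1) :=
    Nat.pow_le_pow_left (by omega) _
  have h3 := le_of_fac (n / 4) (4 * δ + 1) (by omega) (h1.trans h2)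
  omega

/-- transfer of virtual cyclicity from the range -/
theorem vcyc_of_range (hf : Function.Surjective f) (h : VCyc f.range) : VCyc G := by
  obtain ⟨C, hC, hcyc⟩ := h
  refine ⟨C.map f.range.subtype, ?_, ?_⟩
  · have h1 : f.range.index = 1 := by
      rw [MonoidHom.range_eq_top.2 hf]
      exact Subgroup.index_top
    rw [Subgroup.index_map_subtype, h1, mul_one]
    exact hC
  · exact isCyclic_of_surjective (f.range.subtype.subgroupMap C)
      (f.range.subtype.subgroupMap_surjective C)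

theorem vcyc_of_cyclic (h : IsCyclic f.range) : VCyc f.range := by
  refine ⟨⊤, by rw [Subgroup.index_top]; exact one_ne_zero, ?_⟩
  exact isCyclic_of_surjective (Subgroup.topEquiv.symm) (MulEquiv.surjective _)

/-- finite subgroups which are not cyclic -/
theorem noncyclic (H : HL G) (hf : Function.Surjective f) (hn : 5 ≤ n) (hv : ¬ VCyc G) :
    Finite (Subgroup.closure {f (sg ⟨0, by omega⟩), f (sg ⟨2, by omega⟩)} : Subgroup G) ∧
      ¬ IsCyclic (Subgroup.closure {f (sg ⟨0, by omega⟩), f (sg ⟨2, by omega⟩)} :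
        Subgroup G) := by
  have h0 : IsOfFinOrder (sq f 0) := by
    rcases dichotomy f H hn with ⟨_, h2, _⟩ | ⟨h1, _, _⟩
    · exact absurd (vcyc_of_range f hf h2) hv
    · rw [sq_of f (by omega)]
      exact h1 _
  have h01 : sq f 0 ≠ sq f 1 := fun h =>
    hv (vcyc_of_range f hf (vcyc_of_cyclic f (cyclic_of_eq f hn (sg_eq_of f h))))
  have h1 := not_cyclic (sq_BR f) (by omega) h01 h0
  rw [sq_of f (by omega : 0 < n - 1), sq_of f (by omega : 2 < n - 1)] at h1
  exact h1

end

end H81.Hy
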