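import Pool.Agent.H81.Hy.Bound

/-!
# Solvable images of the braid group on five strands; cyclic subgroups
-/

set_option autoImplicit false

open scoped commutatorElement

namespace H81.Hy

variable {G : Type*} [Group G]

/-- all quotients of generators are in all terms of the derived series -/
theorem mem_derived {s : ℕ → G} (h : BR 4 s) (n : ℕ) : ∀ i j, i < 4 → j < 4 →
    s i * (s j)⁻¹ ∈ derivedSeries G n := by
  induction n with
  | zero =>
    intro i j _ _
    rw [derivedSeries_zero]
    exact Subgroup.mem_top _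
  | succ n ih =>
    have hnorm : (derivedSeries G (n + 1)).Normal := derivedSeries_normal G (n + 1)
    set π := QuotientGroup.mk' (derivedSeries G (n + 1)) with hπ
    have hBR : BR 4 (fun i => π (s i)) := by
      constructor
      · intro i j hij hj
        show π (s i) * π (s j) = π (s j) * π (s i)
        rw [← map_mul, ← map_mul, h.1 i j hij hj]
      · intro i hi
        show π (s i) * π (s (i + 1)) * π (s i) = π (s (i + 1)) * π (s i) * π (s (i + 1))
        rw [← map_mul, ← map_mul, ← map_mul, ← map_mul, h.2 i hi]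
    have h1 : π (s 0 * (s 3)⁻¹) * π (s 1 * (s 3)⁻¹) = π (s 1 * (s 3)⁻¹) * π (s 0 * (s 3)⁻¹) := by
      have h2 : ⁅s 0 * (s 3)⁻¹, s 1 * (s 3)⁻¹⁆ ∈ derivedSeries G (n + 1) := by
        rw [derivedSeries_succ]
        exact Subgroup.commutator_mem_commutator (ih 0 3 (by omega) (by omega))
          (ih 1 3 (by omega) (by omega))
      have h3 : π ⁅s 0 * (s 3)⁻¹, s 1 * (s 3)⁻¹⁆ = 1 := by
        rw [← MonoidHom.mem_ker, hπ, QuotientGroup.ker_mk']
        exact h2
      rw [map_commutatorElement, commutatorElement_eq_one_iff_mul_comm] at h3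
      exact h3
    have c03 : Commute (π (s 0)) (π (s 3)) := hBR.1 0 3 (by omega) (by omega)
    have c13 : Commute (π (s 1)) (π (s 3)) := hBR.1 1 3 (by omega) (by omega)
    have h4 : π (s 0) * π (s 1) = π (s 1) * π (s 0) := by
      rw [map_mul, map_mul, map_inv] at h1
      have e1 : π (s 0) * (π (s 3))⁻¹ * (π (s 1) * (π (s 3))⁻¹) =
          π (s 0) * π (s 1) * ((π (s 3))⁻¹ * (π (s 3))⁻¹) := by
        have := c13.inv_right.eq
        calc π (s 0) * (π (s 3))⁻¹ * (π (s 1) * (π (s 3))⁻¹) =
            π (s 0) * ((π (s 3))⁻¹ * π (s 1)) * (π (s 3))⁻¹ := by group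
          _ = _ := by rw [← this]; group
      have e2 : π (s 1) * (π (s 3))⁻¹ * (π (s 0) * (π (s 3))⁻¹) =
          π (s 1) * π (s 0) * ((π (s 3))⁻¹ * (π (s 3))⁻¹) := by
        have := c03.inv_right.eq
        calc π (s 1) * (π (s 3))⁻¹ * (π (s 0) * (π (s 3))⁻¹) =
            π (s 1) * ((π (s 3))⁻¹ * π (s 0)) * (π (s 3))⁻¹ := by group
          _ = _ := by rw [← this]; group
      rw [e1, e2] at h1
      exact mul_right_cancel h1
    have h5 : π (s 0) = π (s 1) := eq_of_comm_braid h4 (hBR.2 0 (by omega))
    intro i j hi hj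
    have h6 : π (s i) = π (s j) := by
      have a1 := all_eq hBR h5 i hi
      have a2 := all_eq hBR h5 j hj
      exact a1.trans a2.symm
    have h7 : π (s i * (s j)⁻¹) = 1 := by
      rw [map_mul, map_inv, h6, mul_inv_cancel]
    rw [← MonoidHom.mem_ker, hπ, QuotientGroup.ker_mk'] at h7
    exact h7

/-- the image of the braid group on five strands is not solvable unless it is cyclic -/
theorem eq_of_solvable {s : ℕ → G} (h : BR 4 s) (hs : Group.IsSolvable (Pb s 5)) : s 0 = s 1 := by
  by_contra hne
  set A := Pb s 5 with hA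
  set S : ℕ → A := fun j => if hj : j + 1 < 5 then ⟨s j, mem_Pb s hj⟩ else 1 with hS
  have hSj : ∀ j, j + 1 < 5 → (S j : G) = s j := by
    intro j hj
    rw [hS]
    simp only [hj, dif_pos]
  have hBR : BR 4 S := by
    constructor
    · intro i j hij hj
      apply Subtype.ext
      push_cast
      rw [hSj i (by omega), hSj j (by omega)]
      exact h.1 i j hij hj
    · intro i hi
      apply Subtype.ext
      push_cast
      rw [hSj i (by omega), hSj (i + 1) (by omega)]
      exact h.2 i hi
  have h1 : S 0 * (S 1)⁻¹ ≠ 1 := by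
    intro h0
    rw [mul_inv_eq_one] at h0
    have := congrArg (Subtype.val : A → G) h0
    rw [hSj 0 (by omega), hSj 1 (by omega)] at this
    exact hne this
  exact not_isSolvable_of_mem_derivedSeries h1
    (fun n => mem_derived hBR n 0 1 (by omega) (by omega)) hs

/-- two elements of the same finite order in a cyclic subgroup -/
theorem mem_zpowers_of_cyclic {a b : G} (C : Subgroup G) (hC : IsCyclic C) (hf : (C : Set G).Finite)
    (ha : a ∈ C) (hb : b ∈ C) (hab : orderOf a = orderOf b) : b ∈ Subgroup.zpowers a := by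
  classical
  have : Finite C := hf
  have : Fintype C := Fintype.ofFinite C
  have hfa : IsOfFinOrder a := by
    have : IsOfFinOrder (⟨a, ha⟩ : C) := isOfFinOrder_of_finite _
    exact C.subtype.isOfFinOrder this
  have hpos : 0 < orderOf a := hfa.orderOf_pos
  have h1 := IsCyclic.card_pow_eq_one_le (α := C) (n := orderOf a) hpos
  by_contra hb'
  -- the powers of `a` and `b`
  have h2 : (Finset.univ.filter fun c : C => c ^ orderOf a = 1).card ≥ orderOf a + 1 := by
    have h3 : ((Finset.range (orderOf a)).image (fun i => (⟨a, ha⟩ : C) ^ i)).card = orderOf a := by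
      rw [Finset.card_image_of_injOn, Finset.card_range]
      intro i hi j hj hij
      have hij' : a ^ i = a ^ j := by
        have := congrArg (Subtype.val : C → G) hij
        simpa using this
      rw [Finset.coe_range, Set.mem_Iio] at hi hj
      exact pow_injOn_Iio_orderOf hi hj hij'
    have h4 : (⟨b, hb⟩ : C) ∉ (Finset.range (orderOf a)).image (fun i => (⟨a, ha⟩ : C) ^ i) := by
      intro h
      rw [Finset.mem_image] at h
      obtain ⟨i, _, hi⟩ := h
      have := congrArg (Subtype.val : C → G) hi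
      apply hb'
      rw [Subgroup.mem_zpowers_iff]
      refine ⟨i, ?_⟩
      rw [zpow_natCast]
      simpa using this
    have h5 := Finset.card_insert_of_notMem h4
    rw [h3] at h5
    rw [ge_iff_le, ← h5]
    refine Finset.card_le_card ?_
    intro c hc
    rw [Finset.mem_insert, Finset.mem_image] at hc
    rw [Finset.mem_filter]
    refine ⟨Finset.mem_univ _, ?_⟩
    rcases hc with rfl | ⟨i, _, rfl⟩
    · apply Subtype.ext
      push_cast
      rw [hab]
      exact pow_orderOf_eq_one b
    · apply Subtype.ext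
      push_cast
      rw [← pow_mul, mul_comm, pow_mul, pow_orderOf_eq_one, one_pow]
  omega

theorem orderOf_conj' (g a : G) : orderOf (g * a * g⁻¹) = orderOf a := by
  have := orderOf_injective (MulAut.conj g).toMonoidHom (MulEquiv.injective _) a
  simpa using this

/-- in the torsion case `s 0, s 2` generate a finite group which is not cyclic -/
theorem not_cyclic {N : ℕ} {s : ℕ → G} (h : BR N s) (hN : 4 ≤ N) (h01 : s 0 ≠ s 1)
    (h0 : IsOfFinOrder (s 0)) :
    ((Subgroup.closure {s 0, s 2} : Subgroup G) : Set G).Finite ∧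
      ¬ IsCyclic (Subgroup.closure {s 0, s 2} : Subgroup G) := by
  have h2 : IsOfFinOrder (s 2) := by rwa [fin_shift h 2 (by omega)]
  have hfin : ((Subgroup.closure {s 0, s 2} : Subgroup G) : Set G).Finite := by
    have e : (Subgroup.closure {s 0, s 2} : Subgroup G) =
        Subgroup.zpowers (s 0) ⊔ Subgroup.zpowers (s 2) := by
      rw [Subgroup.zpowers_eq_closure, Subgroup.zpowers_eq_closure, ← Subgroup.closure_union]
      rfl
    rw [e]
    refine sup_finite _ _ (finite_zpowers.2 h0) (finite_zpowers.2 h2) ?_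
    intro a ha b hb
    obtain ⟨i, rfl⟩ := Subgroup.mem_zpowers_iff.1 ha
    obtain ⟨j, rfl⟩ := Subgroup.mem_zpowers_iff.1 hb
    have hc : Commute (s 0) (s 2) := h.1 0 2 le_rfl (by omega)
    exact (hc.zpow_left i).zpow_right j
  refine ⟨hfin, fun hcyc => ?_⟩
  have m0 : s 0 ∈ (Subgroup.closure {s 0, s 2} : Subgroup G) :=
    Subgroup.subset_closure (by simp)
  have m2 : s 2 ∈ (Subgroup.closure {s 0, s 2} : Subgroup G) :=
    Subgroup.subset_closure (by simp)
  have o2 : orderOf (s 2) = orderOf (s 0) := by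
    rw [← conj_shift_pow h 0 2 (by omega), orderOf_conj']
  have h3 : s 0 ∈ Subgroup.zpowers (s 2) := mem_zpowers_of_cyclic _ hcyc hfin m2 m0 o2
  obtain ⟨k, hk⟩ := Subgroup.mem_zpowers_iff.1 h3
  -- conjugation by `s 2 * s 3` fixes `s 0` and maps `s 2` to `s 3`
  have c02 : Commute (s 0) (s 2) := h.1 0 2 le_rfl (by omega)
  have c03 : Commute (s 0) (s 3) := h.1 0 3 (by omega) (by omega)
  have e1 : s 2 * s 3 * s 2 * (s 2 * s 3)⁻¹ = s 3 := by
    rw [mul_inv_eq_iff_eq_mul, h.2 2 (by omega)]
    group
  have e2 : s 2 * s 3 * s 0 * (s 2 * s 3)⁻¹ = s 0 := by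
    rw [mul_inv_eq_iff_eq_mul]
    exact (c02.mul_right c03).eq.symm
  have e3 : s 3 ^ k = s 0 := by
    rw [← e1, conj_zpow, hk]
    exact e2
  have h4 : s 2 ∈ Subgroup.zpowers (s 0) :=
    mem_zpowers_of_cyclic _ hcyc hfin m0 m2 o2.symm
  obtain ⟨l, hl⟩ := Subgroup.mem_zpowers_iff.1 h4
  have h5 : Commute (s 2) (s 3) := by
    rw [← hl, ← e3]
    exact ((Commute.refl (s 3)).zpow_left k).zpow_left l
  exact h01 (eq_zero_one_of h (i := 2) (by omega) (eq_of_comm_braid h5.eq (h.2 2 (by omega))))

end H81.Hy
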