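import Pool.Agent.H81.Hy.Defs

/-!
# Growth of powers; torsion subgroups are finite
-/

set_option autoImplicit false

namespace H81.Hy

variable {G : Type*} [Group G]

namespace HL

variable (H : HL G)

theorem d_pow (g : G) (i j : ℕ) : H.d (g ^ i) (g ^ (i + j)) = H.l (g ^ j) := by
  unfold d
  rw [pow_add, inv_mul_cancel_left]

/-- linear growth of powers -/
theorem grow (g : G) (ε : ℕ) (hε : 1 ≤ ε) (h : H.l g + 2 * H.δ + ε ≤ H.l (g ^ 2)) (n : ℕ) :
    H.l (g ^ (n + 1)) + ε ≤ H.l (g ^ (n + 2)) := by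
  induction n with
  | zero =>
    rw [zero_add, pow_one, zero_add]
    omega
  | succ n ih =>
    have h1 := H.d_fp 1 g (g ^ 2) (g ^ (n + 3))
    have e1 : H.d 1 (g ^ 2) = H.l (g ^ 2) := H.d_one _
    have e2 : H.d g (g ^ (n + 3)) = H.l (g ^ (n + 2)) := by
      have := H.d_pow g 1 (n + 2)
      rwa [pow_one, show 1 + (n + 2) = n + 3 by omega] at this
    have e3 : H.d 1 g = H.l g := H.d_one _
    have e4 : H.d (g ^ 2) (g ^ (n + 3)) = H.l (g ^ (n + 1)) := by
      have := H.d_pow g 2 (n + 1)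
      rwa [show 2 + (n + 1) = n + 3 by omega] at this
    have e5 : H.d g (g ^ 2) = H.l g := by
      have := H.d_pow g 1 1
      rwa [pow_one] at this
    have e6 : H.d 1 (g ^ (n + 3)) = H.l (g ^ (n + 3)) := H.d_one _
    rw [e1, e2, e3, e4, e5, e6] at h1
    show H.l (g ^ (n + 2)) + ε ≤ H.l (g ^ (n + 3))
    omega

theorem grow_le (g : G) (ε : ℕ) (hε : 1 ≤ ε) (h : H.l g + 2 * H.δ + ε ≤ H.l (g ^ 2)) (n k : ℕ) :
    H.l (g ^ (n + 1)) + k * ε ≤ H.l (g ^ (n + 1 + k)) := by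
  induction k with
  | zero => simp
  | succ k ih =>
    have h1 := H.grow g ε hε h (n + k)
    rw [show n + k + 1 = n + 1 + k by ring, show n + k + 2 = n + 1 + (k + 1) by ring] at h1
    have h2 : (k + 1) * ε = k * ε + ε := by ring
    omega

/-- elements of finite order double slowly -/
theorem l_sq_le (g : G) (hg : IsOfFinOrder g) : H.l (g ^ 2) ≤ H.l g + 2 * H.δ := by
  by_contra hc
  obtain ⟨k, hk, hk1⟩ := (isOfFinOrder_iff_pow_eq_one).1 hg
  have h1 := H.grow_le g 1 le_rfl (by omega) (k - 1) (k * (H.l (g ^ k) + 1))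
  rw [show k - 1 + 1 = k by omega] at h1
  have h2 : g ^ (k + k * (H.l (g ^ k) + 1)) = 1 := by
    rw [pow_add, pow_mul, hk1, one_pow, one_mul]
  rw [h2, hk1, H.one] at h1
  simp at h1
  omega

/-- elliptic elements -/
def El (g : G) : Prop := ∀ x, H.l (x⁻¹ * g ^ 2 * x) ≤ H.l (x⁻¹ * g * x) + 2 * H.δ

theorem El.sq {H : HL G} {g : G} (h : H.El g) : H.l (g ^ 2) ≤ H.l g + 2 * H.δ := by
  have := h 1
  simpa using this

theorem El.conj {H : HL G} {g : G} (h : H.El g) (x : G) : H.El (x⁻¹ * g * x) := by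
  intro y
  have h1 := h (x * y)
  have e1 : y⁻¹ * (x⁻¹ * g * x) ^ 2 * y = (x * y)⁻¹ * g ^ 2 * (x * y) := by
    rw [pow_two, pow_two]; group
  have e2 : y⁻¹ * (x⁻¹ * g * x) * y = (x * y)⁻¹ * g * (x * y) := by group
  rw [e1, e2]
  exact h1

theorem El.inv {H : HL G} {g : G} (h : H.El g) : H.El g⁻¹ := by
  intro y
  have h1 := h y
  have e1 : y⁻¹ * g⁻¹ ^ 2 * y = (y⁻¹ * g ^ 2 * y)⁻¹ := by
    rw [pow_two, pow_two]; group
  have e2 : y⁻¹ * g⁻¹ * y = (y⁻¹ * g * y)⁻¹ := by group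
  rw [e1, e2, H.inv, H.inv]
  exact h1

theorem fin_conj {s : G} (hs : IsOfFinOrder s) (x : G) : IsOfFinOrder (x⁻¹ * s * x) := by
  have h := (MulAut.conj x⁻¹).toMonoidHom.isOfFinOrder hs
  simpa using h

theorem el_of_fin {g : G} (hg : IsOfFinOrder g) : H.El g := by
  intro x
  have h1 := H.l_sq_le _ (fin_conj hg x)
  have e1 : (x⁻¹ * g * x) ^ 2 = x⁻¹ * g ^ 2 * x := by
    rw [pow_two, pow_two]; group
  rwa [e1] at h1

/-- hyperbolicity in terms of Gromov products -/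
theorem fp4 (o a b c : G) : H.d o b + H.d a c ≤
    max (H.d o a + H.d b c) (H.d o c + H.d a b) + 2 * H.δ := by
  have h := H.d_fp o a b c
  rw [max_comm, add_comm (H.d a b)] at h
  exact h.trans (le_of_eq (by rw [add_comm (H.d o c)]; rw [max_comm, add_comm (H.d a b), max_comm]))

/-- two elements of finite order with finite order product have a large Gromov product -/
theorem not_both (s t : G) (C : ℕ) (hs : H.El s)
    (ht : H.El t) (hst : H.El (s * t)) (hl : 3 * C + 9 * H.δ + 1 ≤ H.l s)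
    (hlt : H.l s ≤ H.l t + 2 * C + 2 * H.δ)
    (h1 : H.l s + H.l t ≤ H.d s t + C + 3 * H.δ) : False := by
  have es := hs.sq
  have et := ht.sq
  have ew := hst.sq
  have is1 : H.d 1 s⁻¹ = H.l s := by rw [H.d_one, H.inv]
  have it1 : H.d 1 t⁻¹ = H.l t := by rw [H.d_one, H.inv]
  have ds : H.d s s⁻¹ = H.l (s ^ 2) := by
    rw [H.d_comm]; unfold d; rw [inv_inv, pow_two]
  have dt : H.d t⁻¹ t = H.l (t ^ 2) := by
    unfold d; rw [inv_inv, pow_two]
  have x01 : H.d 1 s = H.l s := H.d_one s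
  have y01 : H.d 1 t = H.l t := H.d_one t
  -- 2 (s | t⁻¹) ≤ C + 5 δ
  have b1 : H.l s + H.l t ≤ H.d s t⁻¹ + C + 5 * H.δ := by
    have := H.fp4 1 s t⁻¹ t
    rw [it1, x01, dt, y01] at this
    omega
  have b2 : H.l s + H.l t ≤ H.d s⁻¹ t + C + 5 * H.δ := by
    have := H.fp4 1 s s⁻¹ t
    rw [is1, x01, ds, y01] at this
    omega
  -- points of the path
  have x02 : H.d (s * t) 1 = H.d s⁻¹ t := by
    rw [H.d_comm, H.d_one]; unfold d; rw [inv_inv]
  have y02 : H.l (s * t) = H.d s⁻¹ t := by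
    unfold d; rw [inv_inv]
  have x12 : H.d (s * t) s = H.l t := by
    rw [H.d_comm]; unfold d; rw [inv_mul_cancel_left]
  have x23 : H.d (s * t) (s * t * s) = H.l s := by
    unfold d; rw [inv_mul_cancel_left]
  have x13 : H.d s (s * t * s) = H.d s t⁻¹ := by
    rw [H.d_comm s t⁻¹]
    unfold d; congr 1; group
  have x34 : H.d (s * t * s) (s * t * s * t) = H.l t := by
    unfold d; rw [inv_mul_cancel_left]
  have x24 : H.d (s * t) (s * t * s * t) = H.d s⁻¹ t := by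
    rw [← y02]
    unfold d; congr 1; group
  have x04 : H.d 1 (s * t * s * t) = H.l ((s * t) ^ 2) := by
    rw [H.d_one, pow_two, mul_assoc (s * t) s t]
  have x10 : H.d s 1 = H.l s := by rw [H.d_comm, H.d_one]
  have p1 := H.fp4 (s * t) s 1 (s * t * s)
  rw [x02, x13, x12, x23, x10] at p1
  have p2 := H.fp4 (s * t * s) (s * t) 1 (s * t * s * t)
  rw [H.d_comm (s * t * s) 1, x24, H.d_comm (s * t * s) (s * t), x23, x04, x34, x02] at p2
  rw [y02] at ew
  omega

/-- a finite set of elements of a torsion subgroup has a common point of small displacement -/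
theorem exists_small (A : Subgroup G) (hA : ∀ a ∈ A, H.El a) (S : Finset G)
    (hS : ∀ s ∈ S, s ∈ A) : ∃ x, ∀ s ∈ S, H.l (x⁻¹ * s * x) ≤ 18 * H.δ + 3 := by
  classical
  set m : G → ℕ := fun x => S.sup (fun s => H.l (x⁻¹ * s * x)) with hm
  obtain ⟨x, hx⟩ := Nat.sInf_mem (Set.range_nonempty m)
  have hmin : ∀ y, m x ≤ m y := fun y => by
    rw [hx]
    exact Nat.sInf_le ⟨y, rfl⟩
  refine ⟨x, ?_⟩
  by_contra hc
  push Not at hc
  obtain ⟨s0, hs0, hs0l⟩ := hc
  have hne : S.Nonempty := ⟨s0, hs0⟩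
  obtain ⟨s, hs, hsL⟩ := Finset.exists_mem_eq_sup S hne (fun s => H.l (x⁻¹ * s * x))
  have hle : ∀ t ∈ S, H.l (x⁻¹ * t * x) ≤ m x := fun t ht =>
    Finset.le_sup (f := fun s => H.l (x⁻¹ * s * x)) ht
  have hL : 18 * H.δ + 4 ≤ m x := lt_of_lt_of_le hs0l (hle s0 hs0)
  set s' := x⁻¹ * s * x with hs'
  have hsL' : m x = H.l s' := hsL
  obtain ⟨p, hp1, hp2⟩ := H.geo s' (3 * H.δ + 1) (by omega)
  obtain ⟨t, ht, htL⟩ := Finset.exists_mem_eq_sup S hne (fun s => H.l ((x * p)⁻¹ * s * (x * p)))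
  have htL' : m x ≤ H.l ((x * p)⁻¹ * t * (x * p)) := by
    rw [← htL]
    exact hmin (x * p)
  set t' := x⁻¹ * t * x with ht'
  have htl : H.l t' ≤ m x := hle t ht
  have e1 : H.d p (t' * p) = H.l ((x * p)⁻¹ * t * (x * p)) := by
    unfold d; congr 1; rw [ht']; group
  have e2 : H.d 1 (t' * p) = H.d p t'⁻¹ := by
    rw [H.d_one]; unfold d; rw [← H.inv (t' * p)]; congr 1; group
  have e3 : H.d t' (t' * p) = H.l p := by
    unfold d; rw [inv_mul_cancel_left]
  have e4 : H.d p s' = H.l s' - (3 * H.δ + 1) := by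
    unfold d; exact hp2
  have f1 := H.fp4 1 p t' (t' * p)
  rw [H.d_one, e1, H.d_one, e3, e2] at f1
  have g1 := H.d_tri p 1 t'
  have g2 := H.d_tri p 1 t'⁻¹
  rw [H.d_comm p 1, H.d_one, H.d_one] at g1 g2
  rw [H.inv] at g2
  have tf : H.El t' := (hA t (hS t ht)).conj x
  have sf : H.El s' := (hA s (hS s hs)).conj x
  have key : ∀ u : G, H.El u → H.El (s' * u) → H.l u = H.l t' →
      H.l u ≤ H.d p u + H.δ → False := by
    intro u hu hsu hut hpu
    have f2 := H.fp4 1 p s' u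
    rw [H.d_one, H.d_one, H.d_one, e4] at f2
    refine H.not_both s' u (3 * H.δ + 1) sf hu hsu (by omega) (by omega) (by omega)
  rcases le_total (H.d p t') (H.d p t'⁻¹) with hc | hc
  · refine key t'⁻¹ tf.inv ?_ (H.inv _) (by rw [H.inv]; omega)
    have h : s' * t'⁻¹ = x⁻¹ * (s * t⁻¹) * x := by rw [hs', ht']; group
    rw [h]
    exact (hA _ (A.mul_mem (hS s hs) (A.inv_mem (hS t ht)))).conj x
  · refine key t' tf ?_ rfl (by omega)
    have h : s' * t' = x⁻¹ * (s * t) * x := by rw [hs', ht']; group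
    rw [h]
    exact (hA _ (A.mul_mem (hS s hs) (hS t ht))).conj x

theorem finite_of_el (A : Subgroup G) (hA : ∀ a ∈ A, H.El a) :
    (A : Set G).Finite := by
  by_contra hc
  obtain ⟨S, hS1, hS2⟩ := Set.Infinite.exists_subset_card_eq hc
    (Set.ncard {g | H.l g ≤ 18 * H.δ + 3} + 1)
  obtain ⟨x, hx⟩ := H.exists_small A hA S (fun s hs => hS1 hs)
  have h1 : S.card ≤ Set.ncard {g | H.l g ≤ 18 * H.δ + 3} := by
    rw [← Set.ncard_coe_finset S]
    refine Set.ncard_le_ncard_of_injOn (fun s => x⁻¹ * s * x) (fun s hs => hx s hs) ?_ (H.fin _)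
    intro s _ t _ hst
    simpa using hst
  omega

include H in
/-- torsion subgroups of hyperbolic groups are finite -/
theorem finite_of_torsion (A : Subgroup G) (hA : ∀ a ∈ A, IsOfFinOrder a) :
    (A : Set G).Finite := H.finite_of_el A fun a ha => H.el_of_fin (hA a ha)

/-- a finite subgroup has a point of small displacement -/
theorem exists_center (A : Subgroup G) (hA : (A : Set G).Finite) :
    ∃ m, ∀ g ∈ A, H.l (m⁻¹ * g * m) ≤ 4 * H.δ + 1 := by
  classical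
  obtain ⟨g0, hg0, hmax⟩ := Set.exists_max_image (A : Set G) H.l hA ⟨1, A.one_mem⟩
  obtain ⟨m, hm1, hm2⟩ := H.geo g0 (H.l g0 / 2) (Nat.div_le_self _ _)
  have hd : ∀ a ∈ A, ∀ c ∈ A, H.d a c ≤ H.l g0 := fun a ha c hc =>
    hmax _ (A.mul_mem (A.inv_mem ha) hc)
  have e1 : H.d 1 m = H.l g0 / 2 := by rw [H.d_one, hm1]
  have e2 : H.d m g0 = H.l g0 - H.l g0 / 2 := hm2
  have hc : ∀ c ∈ A, H.d c m ≤ H.l g0 - H.l g0 / 2 + 2 * H.δ := by
    intro c hc
    have f := H.fp4 1 c g0 m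
    rw [H.d_one] at f
    have h1 := hd 1 A.one_mem c hc
    have h2 := hd c hc g0 hg0
    rw [H.d_comm g0 m, e1, e2] at f
    omega
  refine ⟨m, fun g hg => ?_⟩
  have e3 : H.d m (g * m) = H.l (m⁻¹ * g * m) := by unfold d; congr 1; group
  have e4 : H.d (g * m) 1 = H.d g⁻¹ m := by
    rw [← H.d_left g g⁻¹ m, mul_inv_cancel, H.d_comm]
  have e5 : H.d (g * m) g0 = H.d (g⁻¹ * g0) m := by
    rw [← H.d_left g (g⁻¹ * g0) m, mul_inv_cancel_left, H.d_comm]
  have f := H.fp4 m 1 (g * m) g0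
  rw [e3, H.d_one, H.d_comm m 1, e1, e5, e2, H.d_comm 1 (g * m), e4] at f
  have h1 := hc g⁻¹ (A.inv_mem hg)
  have h2 := hc (g⁻¹ * g0) (A.mul_mem (A.inv_mem hg) hg0)
  omega

/-- the order of a finite subgroup -/
theorem card_le (A : Subgroup G) (hA : (A : Set G).Finite) :
    Nat.card A ≤ H.b ^ (4 * H.δ + 1) := by
  obtain ⟨m, hm⟩ := H.exists_center A hA
  refine le_trans ?_ (H.card (4 * H.δ + 1))
  have h1 : Nat.card A = Set.ncard (A : Set G) := rfl
  rw [h1]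
  refine Set.ncard_le_ncard_of_injOn (fun s => m⁻¹ * s * m) (fun s hs => hm s hs) ?_ (H.fin _)
  intro s _ t _ hst
  simpa using hst

end HL

end H81.Hy
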